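import Pool.Agent.Lib.MP_ab3705_an.GD.Stmt

set_option autoImplicit false

namespace Pool.Agent.Lib.MP_ab3705_an.GD

open Filter Topology Set

variable {Y : Type*} [NormedAddCommGroup Y] [NormedSpace ℝ Y]

/-- The pseudonorm on `V` induced by an additive map. -/
noncomputable def pb (T : V →+ Y) : V → ℝ := fun v => ‖T v‖

theorem map_q (T : V →+ Y) (q : ℚ) (w : V) : T (q • w) = (q : ℝ) • T w := by
  have h := map_ratCast_smul T ℚ ℝ q w
  simpa using h

/-- On `U` the image of `w` is within `e` of a fixed finite set. -/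
def Loc (Y : Type*) [NormedAddCommGroup Y] (U : Set (V → ℝ)) (w : V) (e : ℝ) : Prop :=
  ∃ K : Set Y, K.Finite ∧ ∀ T : V →+ Y, pb T ∈ U → ∃ z ∈ K, ‖T w - z‖ ≤ e

/-- On `U` one of finitely many vectors is sent within `e` of `z`. -/
def Hit (U : Set (V → ℝ)) (z : Y) (e : ℝ) : Prop :=
  ∃ W : Set V, W.Finite ∧ ∀ T : V →+ Y, pb T ∈ U → ∃ w ∈ W, ‖T w - z‖ ≤ e

/-- `z` is pinned at `T` with accuracy `e`. -/
def Pin (T : V →+ Y) (z : Y) (e : ℝ) : Prop :=
  ∃ U : Set (V → ℝ), IsOpen U ∧ pb T ∈ U ∧ ∃ W : Set V, W.Finite ∧ ∃ K : Set Y, K.Finite ∧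
    ∀ T' : V →+ Y, pb T' ∈ U →
      (∀ w ∈ W, ∃ k ∈ K, ‖T' w - k‖ ≤ e) ∧ ∃ w ∈ W, ‖T' w - z‖ ≤ e

omit [NormedSpace ℝ Y] in
theorem tri (a b c : Y) : ‖a - c‖ ≤ ‖a - b‖ + ‖b - c‖ := by
  simpa [dist_eq_norm] using dist_triangle a b c

/-- The points approximable by located vectors. -/
def locSub (T : V →+ Y) : Submodule ℝ Y where
  carrier := {z | ∀ e > 0, ∃ w, ‖T w - z‖ ≤ e ∧ ∃ U, IsOpen U ∧ pb T ∈ U ∧ Loc Y U w e}
  zero_mem' := by
    intro e he
    refine ⟨0, by simpa using he.le, univ, isOpen_univ, mem_univ _, {0}, finite_singleton _, ?_⟩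
    intro T' _
    exact ⟨0, rfl, by simpa using he.le⟩
  add_mem' := by
    intro a b ha hb e he
    obtain ⟨w, hw, U, hU, hTU, K, hK, hl⟩ := ha (e / 2) (by positivity)
    obtain ⟨w', hw', U', hU', hTU', K', hK', hl'⟩ := hb (e / 2) (by positivity)
    refine ⟨w + w', ?_, U ∩ U', hU.inter hU', ⟨hTU, hTU'⟩, image2 (· + ·) K K',
      hK.image2 _ hK', ?_⟩
    · have : T (w + w') - (a + b) = (T w - a) + (T w' - b) := by rw [map_add]; abel
      rw [this]
      linarith [norm_add_le (T w - a) (T w' - b)]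
    · intro T' hT'
      obtain ⟨z, hz, h1⟩ := hl T' hT'.1
      obtain ⟨z', hz', h2⟩ := hl' T' hT'.2
      refine ⟨z + z', mem_image2_of_mem hz hz', ?_⟩
      have : T' (w + w') - (z + z') = (T' w - z) + (T' w' - z') := by rw [map_add]; abel
      rw [this]
      linarith [norm_add_le (T' w - z) (T' w' - z')]
  smul_mem' := by
    intro r z hz e he
    have hz1 : 0 < ‖z‖ + 1 := by positivity
    obtain ⟨q, hq⟩ := exists_rat_near r (show 0 < e / 2 / (‖z‖ + 1) by positivity)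
    have hq1 : 0 < |(q : ℝ)| + 1 := by positivity
    obtain ⟨w, hw, U, hU, hTU, K, hK, hl⟩ := hz (e / 2 / (|(q : ℝ)| + 1)) (by positivity)
    have hk : |(q : ℝ)| * (e / 2 / (|(q : ℝ)| + 1)) ≤ e / 2 := by
      rw [← mul_div_assoc, div_le_iff₀ hq1]; nlinarith
    refine ⟨q • w, ?_, U, hU, hTU, (fun k => (q : ℝ) • k) '' K, hK.image _, ?_⟩
    · have : T (q • w) - r • z = (q : ℝ) • (T w - z) - (r - q) • z := by
        rw [map_q, smul_sub, sub_smul]; abel
      rw [this]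
      have h1 := norm_sub_le ((q : ℝ) • (T w - z)) ((r - q) • z)
      rw [norm_smul, norm_smul, Real.norm_eq_abs, Real.norm_eq_abs] at h1
      have h2 : |(q : ℝ)| * ‖T w - z‖ ≤ e / 2 :=
        (mul_le_mul_of_nonneg_left hw (abs_nonneg _)).trans hk
      have h3 : |r - q| * ‖z‖ ≤ e / 2 := by
        rw [lt_div_iff₀ hz1] at hq
        nlinarith [abs_nonneg (r - q)]
      linarith
    · intro T' hT'
      obtain ⟨k, hkK, h1⟩ := hl T' hT'
      refine ⟨_, mem_image_of_mem _ hkK, ?_⟩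
      rw [map_q, ← smul_sub, norm_smul, Real.norm_eq_abs]
      have := (mul_le_mul_of_nonneg_left h1 (abs_nonneg (q : ℝ))).trans hk
      linarith

omit [NormedSpace ℝ Y] in
theorem Loc.mono {U : Set (V → ℝ)} {w : V} {e e' : ℝ} (h : Loc Y U w e) (he : e ≤ e') :
    Loc Y U w e' := by
  obtain ⟨K, hK, hl⟩ := h
  refine ⟨K, hK, fun T hT => ?_⟩
  obtain ⟨z, hz, h1⟩ := hl T hT
  exact ⟨z, hz, h1.trans he⟩

theorem locSub_all (T : V →+ Y) (D : Set Y) (hspan : Dense (Submodule.span ℝ D : Set Y))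
    (hH : ∀ z ∈ D, ∀ e > 0, Pin T z e) (u : V) (e : ℝ) (he : 0 < e) :
    ∃ U, IsOpen U ∧ pb T ∈ U ∧ Loc Y U u e := by
  have hle : Submodule.span ℝ D ≤ locSub T := by
    rw [Submodule.span_le]
    intro z hz e he
    obtain ⟨U, hU, hTU, W, -, K, hK, h⟩ := hH z hz e he
    obtain ⟨w, hw, h1⟩ := (h T hTU).2
    exact ⟨w, h1, U, hU, hTU, K, hK, fun T' hT' => (h T' hT').1 w hw⟩
  obtain ⟨z, hz, hd⟩ := Metric.mem_closure_iff.1 (hspan (T u)) (e / 4) (by positivity)
  obtain ⟨w, hw, U, hU, hTU, K, hK, hl⟩ := hle hz (e / 4) (by positivity)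
  refine ⟨U ∩ {μ | μ (u - w) < e / 2}, hU.inter (isOpen_lt (continuous_apply _) continuous_const),
    ⟨hTU, ?_⟩, K, hK, ?_⟩
  · show ‖T (u - w)‖ < e / 2
    rw [map_sub]
    rw [dist_eq_norm] at hd
    have := tri (T u) z (T w)
    rw [norm_sub_rev z] at this
    linarith
  · intro T' hT'
    obtain ⟨k, hk, h1⟩ := hl T' hT'.1
    have h2 : ‖T' (u - w)‖ < e / 2 := hT'.2
    rw [map_sub] at h2
    exact ⟨k, hk, by linarith [tri (T' u) (T' w) k]⟩

theorem limit [CompleteSpace Y] (D : Set Y) (hspan : Dense (Submodule.span ℝ D : Set Y))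
    (μ : V → ℝ) (hc : μ ∈ closure (range (pb : (V →+ Y) → V → ℝ)))
    (h2 : ∀ u : V, ∀ e > 0, ∃ U, IsOpen U ∧ μ ∈ U ∧ Loc Y U u e)
    (h3 : ∀ z ∈ D, ∀ e > 0, ∃ U, IsOpen U ∧ μ ∈ U ∧ Hit U z e) :
    ∃ T : V →+ Y, DenseRange T ∧ pb T = μ := by
  have hne : (comap (pb : (V →+ Y) → V → ℝ) (𝓝 μ)).NeBot := by
    rw [comap_neBot_iff]
    intro t ht
    obtain ⟨_, h1, T, rfl⟩ := mem_closure_iff_nhds.1 hc t ht
    exact ⟨T, h1⟩
  let F : Ultrafilter (V →+ Y) := Ultrafilter.of (comap pb (𝓝 μ))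
  have hF : Tendsto pb (F : Filter (V →+ Y)) (𝓝 μ) := tendsto_iff_comap.2 (Ultrafilter.of_le _)
  have hex : ∀ u : V, ∃ y : Y, Tendsto (fun T : V →+ Y => T u) F (𝓝 y) := by
    intro u
    rw [← cauchy_map_iff_exists_tendsto, Metric.cauchy_iff]
    refine ⟨inferInstance, fun ε hε => ?_⟩
    obtain ⟨U, hU, hμ, K, hK, hl⟩ := h2 u (ε / 3) (by positivity)
    have h1 : ∀ᶠ T in (F : Filter (V →+ Y)), ∃ z ∈ K, ‖T u - z‖ ≤ ε / 3 :=
      (hF.eventually (hU.mem_nhds hμ)).mono fun T hT => hl T hT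
    obtain ⟨z, -, hz⟩ := (Ultrafilter.eventually_exists_mem_iff hK).1 h1
    refine ⟨{y | ‖y - z‖ ≤ ε / 3}, hz, fun x hx y hy => ?_⟩
    have hx' : ‖x - z‖ ≤ ε / 3 := hx
    have hy' : ‖y - z‖ ≤ ε / 3 := hy
    have := tri x z y
    rw [norm_sub_rev z] at this
    rw [dist_eq_norm]
    linarith
  choose S hS using hex
  let T : V →+ Y := AddMonoidHom.mk' S fun a b =>
    tendsto_nhds_unique (hS (a + b)) (by simpa only [map_add] using (hS a).add (hS b))
  have hT : ∀ u, T u = S u := fun _ => rfl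
  refine ⟨T, ?_, ?_⟩
  · let M : Submodule ℝ Y :=
      { carrier := closure (range T)
        zero_mem' := subset_closure ⟨0, map_zero T⟩
        add_mem' := fun {a b} ha hb =>
          map_mem_closure₂ continuous_add ha hb (by
            rintro _ ⟨x, rfl⟩ _ ⟨y, rfl⟩
            exact ⟨x + y, map_add T x y⟩)
        smul_mem' := fun r a ha =>
          map_mem_closure₂ (f := fun (r : ℝ) (a : Y) => r • a) (s := range ((↑) : ℚ → ℝ))
            continuous_smul (Rat.denseRange_cast r) ha (by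
            rintro _ ⟨q, rfl⟩ _ ⟨y, rfl⟩
            exact ⟨q • y, map_q T q y⟩) }
    have hle : Submodule.span ℝ D ≤ M := by
      rw [Submodule.span_le]
      intro z hz
      show z ∈ closure (range T)
      rw [Metric.mem_closure_iff]
      intro ε hε
      obtain ⟨U, hU, hμ, W, hW, hl⟩ := h3 z hz (ε / 2) (by positivity)
      have h1 : ∀ᶠ T' in (F : Filter (V →+ Y)), ∃ w ∈ W, ‖T' w - z‖ ≤ ε / 2 :=
        (hF.eventually (hU.mem_nhds hμ)).mono fun T' hT' => hl T' hT'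
      obtain ⟨w, -, hw⟩ := (Ultrafilter.eventually_exists_mem_iff hW).1 h1
      have h4 : ‖S w - z‖ ≤ ε / 2 := le_of_tendsto ((hS w).sub_const z).norm hw
      refine ⟨T w, mem_range_self _, ?_⟩
      rw [dist_eq_norm, norm_sub_rev, hT]
      linarith
    intro y
    have := closure_mono (show (Submodule.span ℝ D : Set Y) ⊆ closure (range T) from hle) (hspan y)
    rwa [closure_closure] at this
  · funext u
    exact tendsto_nhds_unique (hS u).norm (((continuous_apply u).tendsto μ).comp hF)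

/-- If a countable set with dense span is pinned, the isometry class is a `Gδ` set. -/
theorem crit0 [CompleteSpace Y] (D : Set Y) (hD : D.Countable)
    (hspan : Dense (Submodule.span ℝ D : Set Y))
    (hH : ∀ T : V →+ Y, DenseRange T → ∀ z ∈ D, ∀ e > 0, Pin T z e) :
    IsGδ {μ : V → ℝ | ∃ T : V →+ Y, DenseRange T ∧ pb T = μ} := by
  have key : {μ : V → ℝ | ∃ T : V →+ Y, DenseRange T ∧ pb T = μ} =
      closure (range (pb : (V →+ Y) → V → ℝ)) ∩
      ((⋂ u : V, ⋂ n : ℕ, ⋃₀ {U | IsOpen U ∧ Loc Y U u (1 / ((n : ℝ) + 1))}) ∩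
       (⋂ z ∈ D, ⋂ n : ℕ, ⋃₀ {U | IsOpen U ∧ Hit U z (1 / ((n : ℝ) + 1))})) := by
    ext μ
    constructor
    · rintro ⟨T, hT, rfl⟩
      refine ⟨subset_closure (mem_range_self _), ?_, ?_⟩
      · simp only [mem_iInter]
        intro u n
        obtain ⟨U, hU, h1, h2⟩ := locSub_all T D hspan (hH T hT) u (1 / ((n : ℝ) + 1))
          (by positivity)
        exact ⟨U, ⟨hU, h2⟩, h1⟩
      · simp only [mem_iInter]
        intro z hz n
        obtain ⟨U, hU, h1, W, hW, K, -, h⟩ := hH T hT z hz (1 / ((n : ℝ) + 1)) (by positivity)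
        exact ⟨U, ⟨hU, W, hW, fun T' hT' => (h T' hT').2⟩, h1⟩
    · rintro ⟨hc, h2, h3⟩
      simp only [mem_iInter] at h2 h3
      refine limit D hspan μ hc (fun u e he => ?_) (fun z hz e he => ?_)
      · obtain ⟨n, hn⟩ := exists_nat_one_div_lt he
        obtain ⟨U, ⟨hU, h⟩, hμ⟩ := h2 u n
        exact ⟨U, hU, hμ, h.mono hn.le⟩
      · obtain ⟨n, hn⟩ := exists_nat_one_div_lt he
        obtain ⟨U, ⟨hU, W, hW, h⟩, hμ⟩ := h3 z hz n
        refine ⟨U, hU, hμ, W, hW, fun T hT => ?_⟩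
        obtain ⟨w, hw, h1⟩ := h T hT
        exact ⟨w, hw, h1.trans hn.le⟩
  rw [key]
  refine isClosed_closure.isGδ.inter (IsGδ.inter ?_ ?_)
  · exact IsGδ.iInter fun u => IsGδ.iInter fun n => (isOpen_sUnion fun _ h => h.1).isGδ
  · exact IsGδ.biInter hD fun z _ => IsGδ.iInter fun n => (isOpen_sUnion fun _ h => h.1).isGδ

theorem grid {ι : Type} [Fintype ι] (u : ι → Y) (d : ℝ) (hd : 0 < d) :
    ∃ Φ : Set (ι → ℚ), Φ.Finite ∧ ∃ δ > 0, ∀ u' : ι → Y,
      (∀ q ∈ Φ, |‖∑ i, (q i : ℝ) • u i‖ - ‖∑ i, (q i : ℝ) • u' i‖| < δ) →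
      ∀ a : ι → ℝ, |‖∑ i, a i • u i‖ - ‖∑ i, a i • u' i‖| ≤ d * ∑ i, |a i| := by
  classical
  set M : ℝ := ∑ i, (‖u i‖ + 1) + 1 with hM
  have hM0 : 0 < M := by positivity
  set η : ℝ := d / 4 / M with hη
  have hη0 : 0 < η := by positivity
  obtain ⟨t, ht⟩ := (isCompact_closedBall (0 : ι → ℝ) 1).elim_finite_subcover
    (fun q : ι → ℚ => Metric.ball (fun i => (q i : ℝ)) η) (fun _ => Metric.isOpen_ball) (by
      intro b _
      choose q hq using fun i => exists_rat_near (b i) hη0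
      refine mem_iUnion.2 ⟨q, ?_⟩
      rw [Metric.mem_ball, dist_pi_lt_iff hη0]
      exact fun i => by rw [Real.dist_eq]; exact hq i)
  refine ⟨(t : Set (ι → ℚ)) ∪ range (fun i : ι => Pi.single i (1 : ℚ)),
    t.finite_toSet.union (finite_range _), min 1 (d / 2), by positivity, fun u' h a => ?_⟩
  have h1 : ∀ i, ‖u' i‖ ≤ ‖u i‖ + 1 := by
    intro i
    have := h (Pi.single i 1) (Or.inr ⟨i, rfl⟩)
    have e : ∀ v : ι → Y, ∑ j, ((Pi.single i (1 : ℚ) : ι → ℚ) j : ℝ) • v j = v i := by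
      intro v
      rw [Finset.sum_eq_single i (fun j _ hj => by simp [hj]) (by simp)]
      simp
    rw [e, e, abs_lt] at this
    linarith [min_le_left 1 (d / 2)]
  have lip : ∀ (v : ι → Y) (b c : ι → ℝ), (∀ i, ‖v i‖ ≤ ‖u i‖ + 1) → (∀ i, |b i - c i| ≤ η) →
      |‖∑ i, b i • v i‖ - ‖∑ i, c i • v i‖| ≤ d / 4 := by
    intro v b c hv hbc
    refine (abs_norm_sub_norm_le _ _).trans ?_
    rw [← Finset.sum_sub_distrib]
    refine (norm_sum_le _ _).trans ?_
    have : ∑ i, ‖b i • v i - c i • v i‖ ≤ ∑ i, η * (‖u i‖ + 1) := Finset.sum_le_sum fun i _ => by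
      rw [← sub_smul, norm_smul, Real.norm_eq_abs]
      exact mul_le_mul (hbc i) (hv i) (norm_nonneg _) hη0.le
    rw [← Finset.mul_sum] at this
    have h2 : η * M = d / 4 := by rw [hη]; field_simp
    nlinarith
  have unit : ∀ b : ι → ℝ, ‖b‖ ≤ 1 → |‖∑ i, b i • u i‖ - ‖∑ i, b i • u' i‖| ≤ d := by
    intro b hb
    obtain ⟨q, hq, hbq⟩ := mem_iUnion₂.1 (ht (mem_closedBall_zero_iff.2 hb))
    rw [Metric.mem_ball, dist_pi_lt_iff hη0] at hbq
    have hbq' : ∀ i, |b i - q i| ≤ η := fun i => by rw [← Real.dist_eq]; exact (hbq i).le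
    have e1 := abs_le.1 (lip u b _ (fun i => by linarith) hbq')
    have e2 := abs_le.1 (lip u' b _ h1 hbq')
    have e3 := abs_lt.1 (h q (Or.inl hq))
    rw [abs_le]
    constructor <;> linarith [min_le_right 1 (d / 2)]
  by_cases ha : a = 0
  · simp [ha]
  have hs : 0 < ‖a‖ := norm_pos_iff.2 ha
  have h3 := unit (‖a‖⁻¹ • a) (by rw [norm_smul, norm_inv, norm_norm, inv_mul_cancel₀ hs.ne'])
  have e : ∀ v : ι → Y, ‖∑ i, a i • v i‖ = ‖a‖ * ‖∑ i, (‖a‖⁻¹ • a) i • v i‖ := by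
    intro v
    have : ∑ i, a i • v i = ‖a‖ • ∑ i, (‖a‖⁻¹ • a) i • v i := by
      rw [Finset.smul_sum]
      refine Finset.sum_congr rfl fun i _ => ?_
      rw [smul_smul, Pi.smul_apply, smul_eq_mul, mul_inv_cancel_left₀ hs.ne']
    rw [this, norm_smul, norm_norm]
  rw [e u, e u', ← mul_sub, abs_mul, abs_of_pos hs, mul_comm d]
  refine mul_le_mul ?_ h3 (abs_nonneg _) (by positivity)
  refine (pi_norm_le_iff_of_nonneg (by positivity)).2 fun i => ?_
  rw [Real.norm_eq_abs]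
  exact Finset.single_le_sum (f := fun i => |a i|) (fun _ _ => abs_nonneg _) (Finset.mem_univ i)

theorem pin_of_alg {Y : Type} [NormedAddCommGroup Y] [NormedSpace ℝ Y] (hA : Alg Y)
    (T : V →+ Y) (hT : DenseRange T) (z : Y) (e : ℝ) (he : 0 < e) : Pin T z e := by
  classical
  obtain ⟨k, y, d, K, hd, hK, h⟩ := hA z (e / 4) (by positivity)
  let u : Option (Fin k) → Y := fun o => o.elim z y
  obtain ⟨Φ, hΦ, δ, hδ, hg⟩ := grid u d hd
  obtain ⟨t, ht, hKt⟩ := Metric.totallyBounded_iff.1 hK.totallyBounded (e / 4) (by positivity)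
  let A : Set (Option (Fin k) → Y) :=
    {u' | ∀ q ∈ Φ, |‖∑ i, (q i : ℝ) • u i‖ - ‖∑ i, (q i : ℝ) • u' i‖| < δ}
  have hloc : ∀ u' ∈ A, ∃ s ∈ t, ‖u' none - s‖ < e / 2 := by
    intro u' hu'
    obtain ⟨s, hs, h1⟩ := h (u' none) (fun i => u' (some i)) (fun c a => by
      simpa [Fintype.sum_option, u] using hg u' hu' (fun o => o.elim c a))
    obtain ⟨s', hs', h2⟩ := mem_iUnion₂.1 (hKt hs)
    rw [Metric.mem_ball, dist_eq_norm] at h2
    exact ⟨s', hs', by linarith [tri (u' none) s s']⟩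
  let P : ℕ → Prop := fun n => ∃ x : Fin n → Option (Fin k) → Y,
    (∀ i, x i ∈ A) ∧ ∀ i j, i ≠ j → e < ‖x i none - x j none‖
  have hP0 : P 0 := ⟨fun i => i.elim0, fun i => i.elim0, fun i => i.elim0⟩
  have hPle : ∀ n, P n → n ≤ ht.toFinset.card := by
    rintro n ⟨x, hx, hsep⟩
    choose s hs hs' using fun i => hloc (x i) (hx i)
    have := Finset.card_le_card_of_injOn (s := Finset.univ) (t := ht.toFinset) s
      (fun i _ => by simpa using hs i) (fun i _ j _ hij => by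
        by_contra hne
        have h1 := tri (x i none) (s i) (x j none)
        rw [norm_sub_rev (s i)] at h1
        have h2 := hs' j
        rw [← hij] at h2
        linarith [hsep i j hne, hs' i])
    simpa using this
  set n := Nat.findGreatest P ht.toFinset.card with hn
  have hPn : P n := Nat.findGreatest_spec (Nat.zero_le _) hP0
  have hmax : ¬ P (n + 1) := fun hp =>
    Nat.findGreatest_is_greatest (Nat.lt_succ_self n) (hPle _ hp) hp
  have hopen : IsOpen {x : Fin n → Option (Fin k) → Y |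
      (∀ i, x i ∈ A) ∧ ∀ i j, i ≠ j → e < ‖x i none - x j none‖} := by
    change IsOpen {x : Fin n → Option (Fin k) → Y |
      (∀ i, ∀ q ∈ Φ, |‖∑ o, (q o : ℝ) • u o‖ - ‖∑ o, (q o : ℝ) • x i o‖| < δ) ∧
        ∀ i j, i ≠ j → e < ‖x i none - x j none‖}
    simp only [ofPred_and, ofPred_forall]
    refine (isOpen_iInter_of_finite fun i => hΦ.isOpen_biInter fun q _ => ?_).inter
      (isOpen_iInter_of_finite fun i => isOpen_iInter_of_finite fun j =>
        isOpen_iInter_of_finite fun _ => ?_)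
    · exact isOpen_lt (by fun_prop) continuous_const
    · exact isOpen_lt continuous_const (by fun_prop)
  have hdr : DenseRange (fun (W : Fin n → Option (Fin k) → V) i o => T (W i o)) :=
    DenseRange.piMap (f := fun _ : Fin n => fun (W : Option (Fin k) → V) o => T (W o))
      fun _ => DenseRange.piMap (f := fun _ : Option (Fin k) => T) fun _ => hT
  obtain ⟨W, hW⟩ := hdr.exists_mem_open hopen hPn
  have hmap : ∀ (T' : V →+ Y) (q : Option (Fin k) → ℚ) (i : Fin n),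
      T' (∑ o, q o • W i o) = ∑ o, (q o : ℝ) • T' (W i o) := by
    intro T' q i
    rw [map_sum]
    exact Finset.sum_congr rfl fun o _ => map_q T' _ _
  refine ⟨{μ | (∀ i, ∀ q ∈ Φ, |‖∑ o, (q o : ℝ) • u o‖ - μ (∑ o, q o • W i o)| < δ) ∧
      ∀ i j, i ≠ j → e < μ (W i none - W j none)}, ?_, ?_, range fun i => W i none,
      finite_range _, t, ht, ?_⟩
  · simp only [ofPred_and, ofPred_forall]
    refine (isOpen_iInter_of_finite fun i => hΦ.isOpen_biInter fun q _ => ?_).inter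
      (isOpen_iInter_of_finite fun i => isOpen_iInter_of_finite fun j =>
        isOpen_iInter_of_finite fun _ => ?_)
    · exact isOpen_lt (by fun_prop) continuous_const
    · exact isOpen_lt continuous_const (by fun_prop)
  · refine ⟨fun i q hq => ?_, fun i j hij => ?_⟩
    · simp only [pb, hmap]
      exact hW.1 i q hq
    · simp only [pb, map_sub]
      exact hW.2 i j hij
  · rintro T' ⟨h1, h2⟩
    simp only [pb, hmap, map_sub] at h1 h2
    have hA' : ∀ i, (fun o => T' (W i o)) ∈ A := fun i q hq => h1 i q hq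
    refine ⟨?_, ?_⟩
    · rintro _ ⟨i, rfl⟩
      obtain ⟨s, hs, h3⟩ := hloc _ (hA' i)
      exact ⟨s, hs, by linarith⟩
    · by_contra hcon
      push Not at hcon
      have h4 : ∀ i, e < ‖T' (W i none) - z‖ := fun i => hcon _ ⟨i, rfl⟩
      refine hmax ⟨Fin.cons u fun i o => T' (W i o), fun i => ?_, fun i j hij => ?_⟩
      · refine Fin.cases ?_ (fun i => ?_) i
        · intro q _
          simpa using hδ
        · exact hA' i
      · revert hij
        refine Fin.cases ?_ (fun i => ?_) i <;> refine Fin.cases ?_ (fun j => ?_) j <;> intro hij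
        · exact (hij rfl).elim
        · rw [norm_sub_rev]
          exact h4 j
        · exact h4 i
        · exact h2 i j fun h => hij (by rw [h])

theorem crit : CritStmt := by
  intro Y _ _ _ _ hA
  obtain ⟨D, hD, hd⟩ := TopologicalSpace.exists_countable_dense Y
  have h := crit0 D hD (hd.mono Submodule.subset_span)
    fun T hT z _ e he => pin_of_alg hA T hT z e he
  have e : {μ : V → ℝ | ∃ T : V →+ Y, DenseRange T ∧ pb T = μ} = isoClass Y := by
    ext μ
    exact exists_congr fun T => and_congr_right fun _ => funext_iff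
  rw [e] at h
  exact h.preimage continuous_subtype_val

end Pool.Agent.Lib.MP_ab3705_an.GD
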