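import Mathlib

set_option autoImplicit false

namespace Pool.Agent.Lib.MP_ab3705_an.GD

open MeasureTheory

/-- Finitely supported sequences of rationals. -/
abbrev V : Type := ℕ →₀ ℚ

/-- Pseudonorms on `V`, as a subset of `V → ℝ` with the product topology. -/
def Pn : Set (V → ℝ) :=
  {μ | (∀ v, 0 ≤ μ v) ∧ (∀ (q : ℚ) (v : V), μ (q • v) = |(q : ℝ)| * μ v) ∧
    ∀ u v, μ (u + v) ≤ μ u + μ v}

/-- The set of `μ` whose completion is linearly isometric to `Y`: `μ` is the pull-back of the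
norm of `Y` under an additive map with dense range. -/
def isoClass (Y : Type) [NormedAddCommGroup Y] : Set (V → ℝ) :=
  {μ | ∃ T : V →+ Y, DenseRange T ∧ ∀ v, ‖T v‖ = μ v}

/-- Pseudonorms whose completion is infinite-dimensional. -/
def Pinf : Set (V → ℝ) :=
  {μ | μ ∈ Pn ∧ ∃ (Z : Type) (_ : NormedAddCommGroup Z) (_ : NormedSpace ℝ Z)
    (_ : CompleteSpace Z), ¬ FiniteDimensional ℝ Z ∧ μ ∈ isoClass Z}

/-- The members of `Pinf` that are norms on `V`. -/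
def Bn : Set (V → ℝ) := {μ | μ ∈ Pinf ∧ ∀ v, μ v = 0 → v = 0}

/-- The isometry class of `Y` in the space `S` is a G-delta subset of `S`. -/
def GdIn (S : Set (V → ℝ)) (Y : Type) [NormedAddCommGroup Y] : Prop :=
  IsGδ {μ : S | (μ : V → ℝ) ∈ isoClass Y}

/-- The defining extension property of the Gurarii space. -/
def IsGurarii (Y : Type) [NormedAddCommGroup Y] [NormedSpace ℝ Y] : Prop :=
  ∀ (F : Type) [NormedAddCommGroup F] [NormedSpace ℝ F] [FiniteDimensional ℝ F]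
    (E : Submodule ℝ F) (T : E →ₗᵢ[ℝ] Y) (ε : ℝ), 0 < ε →
    ∃ S : F →ₗ[ℝ] Y, (∀ x : E, S x = T x) ∧
      ∀ x, (1 - ε) * ‖x‖ ≤ ‖S x‖ ∧ ‖S x‖ ≤ (1 + ε) * ‖x‖

/-- `Y` is linearly isometric to `L_p[0,1]` for some real `p ≥ 1`. -/
def IsLp (Y : Type) [NormedAddCommGroup Y] [NormedSpace ℝ Y] : Prop :=
  ∃ (p : ENNReal) (_ : Fact (1 ≤ p)), p ≠ ⊤ ∧
    Nonempty (Y ≃ₗᵢ[ℝ] Lp ℝ p (volume.restrict (Set.Icc (0 : ℝ) 1)))

/-- `X` contains the spaces `ℓ_∞^n` uniformly. -/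
def HasLinf (X : Type) [NormedAddCommGroup X] [NormedSpace ℝ X] : Prop :=
  ∃ C : ℝ, ∀ n : ℕ, ∃ T : (Fin n → ℝ) →ₗ[ℝ] X, ∀ a, ‖a‖ ≤ ‖T a‖ ∧ ‖T a‖ ≤ C * ‖a‖

end Pool.Agent.Lib.MP_ab3705_an.GD
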