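import Pool.Agent.Lib.MP_ab3705_an.GD.Stmt

set_option autoImplicit false

open MeasureTheory Set Filter Topology Real
open scoped ENNReal

namespace Pool.Agent.Lib.MP_ab3705_an.GD

/-- Norm preserving maps and functionals which rule out `Alg`. -/
lemma lpAbs {Y : Type} [NormedAddCommGroup Y] [NormedSpace ℝ Y] (J : ℕ → Y →ₗ[ℝ] Y)
    (L : ℕ → Y →+ ℝ) (x : Y) (hJ : ∀ k u, ‖J k u‖ = ‖u‖) (hL : ∀ k u, L k u ≤ ‖u‖)
    (h0 : ∀ u, Tendsto (fun k => L k u) atTop (𝓝 0)) (h1 : ∀ᶠ k in atTop, 1 / 4 ≤ L k (J k x)) :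
    ¬ Alg Y := fun h => by
  obtain ⟨n, y, d, K, hd, hK, h⟩ := h x (1 / 8) (by norm_num)
  obtain ⟨t, -, ht, hc⟩ := finite_cover_balls_of_compact hK (e := 1 / 16) (by norm_num)
  obtain ⟨k, h2, h3⟩ := (h1.and ((eventually_all_finite ht).2 fun u _ =>
    (h0 u).eventually (gt_mem_nhds (show (0 : ℝ) < 1 / 16 by norm_num)))).exists
  obtain ⟨s, hs, h4⟩ := h (J k x) (fun i => J k (y i)) fun c a => by
    have e : c • J k x + ∑ i, a i • J k (y i) = J k (c • x + ∑ i, a i • y i) := by
      simp only [map_add, map_sum, map_smul]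
    simp only [e, hJ, sub_self, abs_zero]
    positivity
  obtain ⟨u, hu, h5⟩ := mem_iUnion₂.1 (hc hs)
  have h6 := hL k (J k x - s)
  have h7 := hL k (s - u)
  rw [map_sub] at h6 h7
  rw [mem_ball_iff_norm] at h5
  linarith [h3 u hu]

/-- The Riemann-Lebesgue lemma on the interval. -/
lemma lpRL {s : ℝ → ℝ} (hs : Integrable s (volume.restrict (Icc (0 : ℝ) 1))) :
    Tendsto (fun k : ℕ => ∫ t in Icc (0 : ℝ) 1, s t * cos (2 * π * k * t)) atTop (𝓝 0) := by
  have h := (Complex.continuous_re.tendsto 0).comp ((Real.tendsto_integral_exp_smul_cocompact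
    ((Icc (0 : ℝ) 1).indicator fun t => (s t : ℂ))).comp
    (tendsto_natCast_atTop_atTop.mono_right atTop_le_cocompact))
  refine h.congr fun k => ?_
  have e : ∀ v : ℝ, fourierChar (-(v * k)) • (Icc (0 : ℝ) 1).indicator (fun t => (s t : ℂ)) v =
      (Icc (0 : ℝ) 1).indicator
        (fun t => (s t : ℂ) * Complex.exp (((-(2 * π * k * t) : ℝ) : ℂ) * Complex.I)) v := fun v => by
    by_cases hv : v ∈ Icc (0 : ℝ) 1
    · rw [indicator_of_mem hv, indicator_of_mem hv, Circle.smul_def, Real.fourierChar_apply,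
        smul_eq_mul, mul_comm]
      congr 4
      ring
    · simp [hv]
  have hi : Integrable (fun t => (s t : ℂ) * Complex.exp (((-(2 * π * k * t) : ℝ) : ℂ) * Complex.I))
      (volume.restrict (Icc (0 : ℝ) 1)) :=
    hs.ofReal.mul_bdd (c := 1) (Continuous.aestronglyMeasurable (by fun_prop))
      (.of_forall fun t => (Complex.norm_exp_ofReal_mul_I _).le)
  simp only [Function.comp, e]
  rw [integral_indicator measurableSet_Icc]
  refine (integral_re hi).symm.trans (integral_congr_ae (.of_forall fun t => ?_))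
  simp only [RCLike.re_to_complex, Complex.re_ofReal_mul, Complex.exp_ofReal_mul_I_re, cos_neg]

theorem lp : LpStmt := fun Y _ _ ⟨p, _, _, ⟨e⟩⟩ => by
  set μ : Measure ℝ := volume.restrict (Icc (0 : ℝ) 1) with hμ
  have : IsProbabilityMeasure μ := ⟨by simp [hμ]⟩
  let φ : ℕ → ℝ → ℝ := fun k t => cos (2 * π * k * t)
  let r : ℕ → ℝ → ℝ := fun k t => if 0 ≤ φ k t then 1 else -1
  have hφ : ∀ k, Continuous (φ k) := fun k => by fun_prop
  have h1 : ∀ k t, ‖r k t‖ = 1 := fun k t => by simp only [r]; split_ifs <;> simp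
  have hr : ∀ k, MemLp (r k) ⊤ μ := fun k => memLp_top_of_bound (Measurable.aestronglyMeasurable
    (Measurable.ite (measurableSet_le measurable_const (hφ k).measurable) measurable_const
      measurable_const)) 1 (.of_forall fun t => (h1 k t).le)
  let J : ℕ → Lp ℝ p μ →ₗ[ℝ] Lp ℝ p μ := fun k =>
    (ContinuousLinearMap.mul ℝ ℝ).holderₗ μ ⊤ p p (hr k).toLp
  have hJ : ∀ k u, J k u =ᵐ[μ] fun t => r k t * u t := fun k u => by
    filter_upwards [(ContinuousLinearMap.mul ℝ ℝ).coeFn_holder (r := p) (hr k).toLp u,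
      (hr k).coeFn_toLp] with t h2 h3
    exact h2.trans (by rw [h3]; rfl)
  have hi : ∀ u : Lp ℝ p μ, Integrable u μ := fun u => (Lp.memLp u).integrable Fact.out
  have hi' : ∀ k (u : Lp ℝ p μ), Integrable (fun t => u t * φ k t) μ := fun k u =>
    (hi u).mul_bdd (c := 1) (hφ k).aestronglyMeasurable (.of_forall fun t => abs_cos_le_one _)
  let L : ℕ → Lp ℝ p μ →+ ℝ := fun k => AddMonoidHom.mk' (fun u => ∫ t, u t * φ k t ∂μ)
    fun u v => by
      rw [← integral_add (hi' k u) (hi' k v)]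
      refine integral_congr_ae ?_
      filter_upwards [Lp.coeFn_add u v] with t ht
      rw [ht, Pi.add_apply, add_mul]
  have hx : MemLp (fun _ : ℝ => (1 : ℝ)) p μ := memLp_const 1
  refine lpAbs (fun k => e.symm.toLinearEquiv.toLinearMap ∘ₗ J k ∘ₗ e.toLinearEquiv.toLinearMap)
    (fun k => (L k).comp e.toLinearEquiv.toLinearMap.toAddMonoidHom) (e.symm hx.toLp)
    (fun k u => ?_) (fun k u => ?_) (fun u => lpRL (hi (e u))) ?_
  · change ‖e.symm (J k (e u))‖ = ‖u‖
    rw [e.symm.norm_map, ← e.norm_map u, Lp.norm_def, Lp.norm_def]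
    refine congrArg _ (eLpNorm_congr_norm_ae ?_)
    filter_upwards [hJ k (e u)] with t ht
    rw [ht, norm_mul, h1, one_mul]
  · change ∫ t, e u t * φ k t ∂μ ≤ ‖u‖
    refine (integral_mono (hi' k _) (hi (e u)).norm fun t => ?_).trans ?_
    · exact (le_abs_self _).trans ((abs_mul _ _).trans_le
        (mul_le_of_le_one_right (abs_nonneg _) (abs_cos_le_one _)))
    · rw [integral_norm_eq_lintegral_enorm (Lp.aestronglyMeasurable _),
        ← eLpNorm_one_eq_lintegral_enorm, ← e.norm_map u, Lp.norm_def]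
      exact ENNReal.toReal_mono (Lp.eLpNorm_ne_top _)
        (eLpNorm_le_eLpNorm_of_exponent_le Fact.out (Lp.aestronglyMeasurable _))
  · have h2 := ((lpRL (s := fun _ => 1 / 2) (integrable_const _)).comp
      (tendsto_id.const_mul_atTop' two_pos)).eventually
      (lt_mem_nhds (show (-(1 / 4) : ℝ) < 0 by norm_num))
    filter_upwards [h2] with k hk
    change 1 / 4 ≤ ∫ t, e (e.symm (J k (e (e.symm hx.toLp)))) t * φ k t ∂μ
    rw [e.apply_symm_apply, e.apply_symm_apply]
    have h3 : Integrable (fun t => 1 / 2 * φ (2 * k) t) μ :=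
      ((hφ _).integrableOn_Icc).const_mul _
    have h4 : ∫ t, (1 / 2 + 1 / 2 * φ (2 * k) t) ∂μ ≤ ∫ t, J k hx.toLp t * φ k t ∂μ := by
      refine integral_mono_ae ((integrable_const _).add h3) (hi' k _) ?_
      filter_upwards [hJ k hx.toLp, hx.coeFn_toLp] with t h5 h6
      have h7 : φ (2 * k) t = 2 * φ k t ^ 2 - 1 := by
        simp only [φ]
        rw [← cos_two_mul]
        congr 1
        push_cast
        ring
      have h8 : φ k t ≤ 1 := cos_le_one _
      have h9 : -1 ≤ φ k t := neg_one_le_cos _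
      rw [h5, h6, h7]
      simp only [r]
      split_ifs <;> nlinarith
    rw [integral_add (integrable_const _) h3, integral_const, probReal_univ, one_smul] at h4
    have h5 : -(1 / 4) < ∫ t, 1 / 2 * φ (2 * k) t ∂μ := hk
    linarith

end Pool.Agent.Lib.MP_ab3705_an.GD
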