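import Pool.Agent.Lib.MP_ab3705_an.GD.OnlyC

set_option autoImplicit false

namespace Pool.Agent.Lib.MP_ab3705_an.GD

open Filter Topology

namespace On

/-- Finite extension data. -/
abbrev Idx : Type := Σ k : ℕ, Finset (V × (Fin k → ℚ) × ℚ) × ℚ

/-- The functions on `V` that realise the extension data. -/
def Ext (a : Idx) : Set (V → ℝ) :=
  {μ | ∃ w : Fin a.1 → V, ∀ t ∈ a.2.1, |μ (t.1 + ∑ j, t.2.1 j • w j) - t.2.2| < a.2.2}

theorem isOpen_ext (a : Idx) : IsOpen (Ext a) := by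
  have : Ext a = ⋃ w : Fin a.1 → V, ⋂ t ∈ a.2.1,
      {μ : V → ℝ | |μ (t.1 + ∑ j, t.2.1 j • w j) - t.2.2| < a.2.2} := by
    ext μ
    simp [Ext]
  rw [this]
  refine isOpen_iUnion fun w => isOpen_biInter_finset fun t _ => ?_
  exact isOpen_lt (by fun_prop) continuous_const

variable {Y : Type} [NormedAddCommGroup Y] [NormedSpace ℝ Y]

theorem push [TopologicalSpace.SeparableSpace Y] (hY : ¬ FiniteDimensional ℝ Y) (h : HasLinf Y)
    {F Z : Type} [NormedAddCommGroup F] [NormedSpace ℝ F] [NormedAddCommGroup Z]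
    [NormedSpace ℝ Z] {E : Submodule ℝ F} (T0 : E →ₗᵢ[ℝ] Z) (T : V →+ Z) {k : ℕ}
    (c : Fin k → F) (Ψ : Finset (V × (Fin k → ℚ) × ℚ)) {γ : ℚ} (hγ : (0 : ℝ) < γ)
    (hΨ : ∀ t ∈ Ψ, ∃ e : E, ‖T t.1 - T0 e‖ < γ ∧
      |‖(e : F) + ∑ j, (t.2.1 j : ℝ) • c j‖ - t.2.2| < γ) :
    (fun v => ‖T v‖) ∈ closure (Ext ⟨k, Ψ, 3 * γ⟩ ∩ D0 Y) := by
  classical
  refine mem_closure_of_approx fun S δ hδ => ?_
  choose! e he1 he2 using hΨ
  obtain ⟨N, hN⟩ := exists_bd (S ∪ Ψ.image Prod.fst)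
  let w : Fin k → V := fun j => Finsupp.single (N + j) 1
  let x : ℕ → Z × F := fun i =>
    if i < N then (T (Finsupp.single i 1), 0)
    else (0, if hi : i - N < k then c ⟨i - N, hi⟩ else 0)
  have hx1 : ∀ v ∈ S ∪ Ψ.image Prod.fst, cb x v = (T v, 0) := by
    intro v hv
    conv_rhs => rw [← cb_self T]
    rw [cb_apply, cb_apply]
    ext
    · rw [Prod.fst_sum]
      exact Finset.sum_congr rfl fun i hi => by simp [x, hN v hv i hi]
    · rw [Prod.snd_sum]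
      exact Finset.sum_eq_zero fun i hi => by simp [x, hN v hv i hi]
  have hx2 : ∀ j, cb x (w j) = (0, c j) := by
    intro j
    simp [w, cb_single, x]
  let f : V × (Fin k → ℚ) × ℚ → F := fun t => (e t : F) + ∑ j, (t.2.1 j : ℝ) • c j
  have hx3 : ∀ t ∈ Ψ, cb x (t.1 + ∑ j, t.2.1 j • w j) = (T t.1, ∑ j, (t.2.1 j : ℝ) • c j) := by
    intro t ht
    rw [map_add, map_sum, hx1 _ (Finset.mem_union_right _ (Finset.mem_image_of_mem _ ht))]
    simp only [map_q, hx2]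
    ext
    · simp [Prod.fst_sum]
    · simp [Prod.snd_sum]
  have hp : ∀ i : S ⊕ Ψ, ∃ (g : Z →L[ℝ] ℝ) (h : F →L[ℝ] ℝ), ‖g‖ ≤ 1 ∧ ‖h‖ ≤ 1 ∧
      (∀ e : E, g (T0 e) = h e) ∧ (∀ s, i = Sum.inl s → g (T s) = ‖T s‖) ∧
      ∀ t, i = Sum.inr t → h (f t) = ‖f t‖ := by
    rintro (s | t)
    · obtain ⟨g, h, h1, h2, h3, h4⟩ := pair_left T0 (T s)
      exact ⟨g, h, h1, h2, h3, fun s' hs => (by cases hs; exact h4), fun t ht => (by cases ht)⟩
    · obtain ⟨g, h, h1, h2, h3, h4⟩ := pair_right T0 (f t)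
      exact ⟨g, h, h1, h2, h3, fun s hs => (by cases hs), fun t' ht => (by cases ht; exact h4)⟩
  choose g hh hg1 hh1 hgh hgs hht using hp
  let Φ : Z × F →+ (S ⊕ Ψ → ℝ) :=
    { toFun := fun p i => g i p.1 + hh i p.2
      map_zero' := by ext i; simp
      map_add' := fun p q => by ext i; simp; ring }
  have hΦ1 : ∀ s ∈ S, ‖Φ (T s, 0)‖ = ‖T s‖ := by
    intro s hs
    apply le_antisymm
    · refine (pi_norm_le_iff_of_nonneg (norm_nonneg _)).2 fun i => ?_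
      simpa [Φ] using (g i).le_of_opNorm_le (hg1 i) (T s)
    · have h1 := norm_le_pi_norm (Φ (T s, 0)) (Sum.inl ⟨s, hs⟩)
      have h2 := hgs (Sum.inl ⟨s, hs⟩) ⟨s, hs⟩ rfl
      simpa [Φ, h2] using h1
  have hΦ2 : ∀ t ∈ Ψ, |‖Φ (T t.1, ∑ j, (t.2.1 j : ℝ) • c j)‖ - ‖f t‖| < γ := by
    intro t ht
    have h0 : (T t.1, ∑ j, (t.2.1 j : ℝ) • c j) - (0, f t) = (T t.1, -(e t : F)) := by
      ext <;> simp [f]
    have h1 : ‖Φ (0, f t)‖ = ‖f t‖ := by
      apply le_antisymm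
      · refine (pi_norm_le_iff_of_nonneg (norm_nonneg _)).2 fun i => ?_
        have := (hh i).le_of_opNorm_le (hh1 i) (f t)
        simpa only [Φ, AddMonoidHom.coe_mk, ZeroHom.coe_mk, map_zero, zero_add, one_mul]
          using this
      · have h1 := norm_le_pi_norm (Φ (0, f t)) (Sum.inr ⟨t, ht⟩)
        have h2 := hht (Sum.inr ⟨t, ht⟩) ⟨t, ht⟩ rfl
        simpa only [Φ, AddMonoidHom.coe_mk, ZeroHom.coe_mk, map_zero, zero_add, h2, norm_norm]
          using h1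
    have h2 : ‖Φ (T t.1, -(e t : F))‖ ≤ ‖T t.1 - T0 (e t)‖ := by
      refine (pi_norm_le_iff_of_nonneg (norm_nonneg _)).2 fun i => ?_
      have := (g i).le_of_opNorm_le (hg1 i) (T t.1 - T0 (e t))
      rw [map_sub, hgh] at this
      simpa [Φ, sub_eq_add_neg] using this
    have h3 := abs_norm_sub_norm_le (Φ (T t.1, ∑ j, (t.2.1 j : ℝ) • c j)) (Φ (0, f t))
    rw [← map_sub, h0, h1] at h3
    exact h3.trans_lt (h2.trans_lt (he1 t ht))
  obtain ⟨ν, hν, hνS⟩ := dens hY h (S ⊕ Ψ) (Φ.comp (cb x))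
    (S ∪ Ψ.image fun t => t.1 + ∑ j, t.2.1 j • w j) (lt_min hδ hγ)
  refine ⟨ν, ⟨⟨w, fun t ht => ?_⟩, hν⟩, fun v hv => ?_⟩
  · have h1 := hνS _ (Finset.mem_union_right _ (Finset.mem_image_of_mem _ ht))
    rw [AddMonoidHom.comp_apply, hx3 t ht] at h1
    have h2 := hΦ2 t ht
    have h3 : |‖f t‖ - t.2.2| < γ := he2 t ht
    have h4 := min_le_right δ γ
    rw [abs_lt] at *
    push_cast
    constructor <;> linarith [h1.1, h1.2, h2.1, h2.2, h3.1, h3.2]
  · have h1 := hνS _ (Finset.mem_union_left _ hv)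
    rw [AddMonoidHom.comp_apply, hx1 v (Finset.mem_union_left _ hv), hΦ1 v hv] at h1
    exact h1.trans_le (min_le_left _ _)

theorem gurarii_of_generic [TopologicalSpace.SeparableSpace Y] (hY : ¬ FiniteDimensional ℝ Y)
    (h : HasLinf Y) {μ : V → ℝ} (hμ : ∀ a, μ ∈ Ext a ∪ (closure (Ext a ∩ D0 Y))ᶜ)
    {Z : Type} [NormedAddCommGroup Z] [NormedSpace ℝ Z] (hZ : μ ∈ isoClass Z) :
    IsGurarii Z := by
  classical
  obtain ⟨T, hTd, hT⟩ := hZ
  obtain rfl : μ = fun v => ‖T v‖ := funext fun v => (hT v).symm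
  intro F _ _ _ E T0 ε hε
  obtain ⟨γ, hγ, hγ2⟩ := exists_rat_btwn (show 0 < min (ε / 14) (1 / 2) by positivity)
  have hγε := hγ2.trans_le (min_le_left _ _)
  have hγ1 := hγ2.trans_le (min_le_right _ _)
  obtain ⟨C, hC⟩ := E.exists_isCompl
  let b := Module.finBasis ℝ C
  let ψ : E × (Fin (Module.finrank ℝ C) → ℝ) → F := fun a => (a.1 : F) + ∑ j, a.2 j • (b j : F)
  have hψ : Function.Surjective ψ := by
    intro y
    obtain ⟨u, v, huv, -⟩ := Submodule.existsUnique_add_of_isCompl hC y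
    refine ⟨(u, fun j => b.repr v j), ?_⟩
    have h1 := congrArg C.subtype (b.sum_repr v)
    rw [map_sum] at h1
    simp only [map_smul, Submodule.subtype_apply] at h1
    simp only [ψ, h1, huv]
  let φ : E × (Fin (Module.finrank ℝ C) → ℚ) → F := fun a =>
    (a.1 : F) + ∑ j, (a.2 j : ℝ) • (b j : F)
  have hφ : DenseRange φ :=
    hψ.denseRange.comp (denseRange_id.prodMap (DenseRange.piMap fun _ => Rat.denseRange_cast))
      (by fun_prop)
  obtain ⟨L, hL⟩ := (isCompact_sphere (0 : F) 1).elim_finite_subcover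
    (fun a => Metric.ball (φ a) γ) (fun _ => Metric.isOpen_ball) fun y _ => by
      obtain ⟨a, ha⟩ := Metric.denseRange_iff.1 hφ y γ hγ
      exact Set.mem_iUnion.2 ⟨a, ha⟩
  choose u hu using fun a : E × (Fin (Module.finrank ℝ C) → ℚ) =>
    Metric.denseRange_iff.1 hTd (T0 a.1) γ hγ
  choose r hr using fun a => exists_rat_near ‖φ a‖ hγ
  have hcl := push hY h T0 T (fun j => (b j : F)) (L.image fun a => (u a, a.2, r a)) hγ (by
    intro t ht
    obtain ⟨a, -, rfl⟩ := Finset.mem_image.1 ht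
    exact ⟨a.1, by rw [← dist_eq_norm, dist_comm]; exact hu a, hr a⟩)
  obtain ⟨w, hw⟩ := (hμ _).resolve_right (not_not.2 hcl)
  let S : F →ₗ[ℝ] Z := LinearMap.ofIsCompl hC T0.toLinearMap (b.constr ℝ fun j => T (w j))
  have hS1 : ∀ x : E, S x = T0 x := fun x => LinearMap.ofIsCompl_apply_left hC x
  have hS2 : ∀ j, S (b j) = T (w j) := fun j => by
    rw [LinearMap.ofIsCompl_apply_right hC (b j), Module.Basis.constr_basis]
  refine ⟨S, hS1, fun x => ?_⟩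
  have key := net_bound S hγ hγ1.le (fun y hy => by
    obtain ⟨a, ha⟩ := Set.mem_iUnion.1 (hL (show y ∈ Metric.sphere (0 : F) 1 by simpa using hy))
    obtain ⟨haL, hya⟩ := Set.mem_iUnion.1 ha
    refine ⟨φ a, by rw [← dist_eq_norm]; exact le_of_lt hya, ?_⟩
    have h1 := hw _ (Finset.mem_image_of_mem _ haL)
    simp only [map_add, map_sum, map_q] at h1
    have h2 : S (φ a) = T0 a.1 + ∑ j, (a.2 j : ℝ) • T (w j) := by
      simp only [φ, map_add, map_sum, map_smul, hS1, hS2]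
    have h3 := abs_norm_sub_norm_le (T0 a.1 + ∑ j, (a.2 j : ℝ) • T (w j))
      (T (u a) + ∑ j, (a.2 j : ℝ) • T (w j))
    rw [add_sub_add_right_eq_sub, ← dist_eq_norm] at h3
    have h4 := hu a
    have h5 := hr a
    rw [h2]
    push_cast at h1
    rw [abs_le] at h3 ⊢
    rw [abs_lt] at h1 h5
    constructor <;> linarith [h1.1, h1.2, h3.1, h3.2, h5.1, h5.2]) x
  have hx := norm_nonneg x
  constructor <;> nlinarith [key.1, key.2]

omit [NormedSpace ℝ Y] in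
theorem d0_class {μ : V → ℝ} (h : μ ∈ D0 Y) : μ ∈ isoClass Y := by
  obtain ⟨T, -, h1, h2⟩ := h
  exact ⟨T, h1, h2⟩

theorem only_aux [CompleteSpace Y] [TopologicalSpace.SeparableSpace Y]
    (hY : ¬ FiniteDimensional ℝ Y) (h : HasLinf Y) (S : Set (V → ℝ)) (hS : Bn ⊆ S)
    (hG : GdIn S Y) : IsGurarii Y := by
  obtain ⟨G, hGo, hG⟩ := isGδ_iff_eq_iInter_nat.1 hG
  choose O hO hOG using fun n => isOpen_induced_iff.1 (hGo n)
  have hpos : ∀ μ ∈ D0 Y, ∀ v, μ v = 0 → v = 0 := by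
    rintro μ ⟨T, h1, -, h2⟩ v hv
    exact (injective_iff_map_eq_zero T).1 h1 v (norm_eq_zero.1 ((h2 v).trans hv))
  have hB : D0 Y ⊆ Bn := fun μ hμ =>
    ⟨⟨pn_of_class (d0_class hμ), Y, inferInstance, inferInstance, inferInstance, hY,
      d0_class hμ⟩, hpos μ hμ⟩
  have hne : (D0 Y).Nonempty := by
    obtain ⟨μ, hμ, -⟩ := dens hY h Unit 0 ∅ one_pos
    exact ⟨μ, hμ⟩
  let U : ℕ ⊕ {v : V // v ≠ 0} ⊕ Idx → Set (V → ℝ) :=
    Sum.elim O (Sum.elim (fun v => {μ | μ v ≠ 0}) fun a => Ext a ∪ (closure (Ext a ∩ D0 Y))ᶜ)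
  obtain ⟨μ, hμ, hU⟩ := baire hne U (by
    rintro (n | v | a)
    · exact hO n
    · exact isOpen_ne_fun (continuous_apply _) continuous_const
    · exact (isOpen_ext a).union isClosed_closure.isOpen_compl) (by
    rintro (n | v | a)
    · intro μ hμ
      refine subset_closure ⟨?_, hμ⟩
      have h1 : (⟨μ, hS (hB hμ)⟩ : S) ∈ ⋂ n, G n := hG ▸ d0_class hμ
      have h2 := Set.mem_iInter.1 h1 n
      rw [← hOG n] at h2
      exact h2
    · exact fun μ hμ => subset_closure ⟨fun h0 => v.2 (hpos μ hμ v h0), hμ⟩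
    · exact generic_dense)
  have hgen : ∀ a, μ ∈ Ext a ∪ (closure (Ext a ∩ D0 Y))ᶜ := fun a => hU (Sum.inr (Sum.inr a))
  obtain ⟨Z, i1, i2, i3, hZ⟩ := class_of_closure hμ
  have hμB : μ ∈ Bn := by
    refine ⟨⟨pn_of_class hZ, Z, i1, i2, i3,
      not_fd_of_gurarii (gurarii_of_generic hY h hgen hZ), hZ⟩, fun v hv => ?_⟩
    by_contra h0
    exact hU (Sum.inr (Sum.inl ⟨v, h0⟩)) hv
  have h1 : (⟨μ, hS hμB⟩ : S) ∈ ⋂ n, G n := by
    refine Set.mem_iInter.2 fun n => ?_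
    rw [← hOG n]
    exact hU (Sum.inl n)
  rw [← hG] at h1
  exact gurarii_of_generic hY h hgen h1

end On

theorem only : OnlyStmt := by
  intro Y _ _ _ _ hY h hG
  rcases hG with hG | hG
  · exact On.only_aux hY h _ (fun μ hμ => hμ.1) hG
  · exact On.only_aux hY h _ le_rfl hG

end Pool.Agent.Lib.MP_ab3705_an.GD
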