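import Pool.Agent.Lib.MP_ab3705_an.GD.Rec
import Pool.Agent.Lib.MP_ab3705_an.GD.Crit
import Pool.Agent.Lib.MP_ab3705_an.GD.Lp
import Pool.Agent.Lib.MP_ab3705_an.GD.Only

set_option autoImplicit false

namespace Pool.Agent.Lib.MP_ab3705_an.GD

section
variable {X Y : Type} [NormedAddCommGroup X] [NormedSpace ℝ X] [NormedAddCommGroup Y]
  [NormedSpace ℝ Y]

theorem HasLinf.of_equiv (e : X ≃L[ℝ] Y) (h : HasLinf X) : HasLinf Y := by
  obtain ⟨C, hC⟩ := h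
  let A : ℝ := ‖(e : X →L[ℝ] Y)‖
  let B : ℝ := ‖(e.symm : Y →L[ℝ] X)‖
  have hA : ∀ x, ‖e x‖ ≤ A * ‖x‖ := fun x => (e : X →L[ℝ] Y).le_opNorm x
  have hB : ∀ x, ‖x‖ ≤ B * ‖e x‖ := fun x => by
    simpa using (e.symm : Y →L[ℝ] X).le_opNorm (e x)
  have hA0 : 0 ≤ A := norm_nonneg _
  have hB0 : 0 ≤ B := norm_nonneg _
  refine ⟨B * (A * C), fun n => ?_⟩
  obtain ⟨T, hT⟩ := hC n
  refine ⟨B • ((e : X →ₗ[ℝ] Y) ∘ₗ T), fun a => ?_⟩
  have e1 : ‖(B • ((e : X →ₗ[ℝ] Y) ∘ₗ T)) a‖ = B * ‖e (T a)‖ := by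
    rw [LinearMap.smul_apply, norm_smul, Real.norm_eq_abs, abs_of_nonneg hB0]; rfl
  rw [e1]
  refine ⟨(hT a).1.trans (hB _), ?_⟩
  rw [mul_assoc, mul_assoc]
  exact mul_le_mul_of_nonneg_left ((hA _).trans (mul_le_mul_of_nonneg_left (hT a).2 hA0)) hB0

theorem IsGurarii.hasLinf (h : IsGurarii Y) : HasLinf Y := by
  refine ⟨3, fun n => ?_⟩
  let T : (⊥ : Submodule ℝ (Fin n → ℝ)) →ₗᵢ[ℝ] Y :=
    { toLinearMap := 0
      norm_map' := fun x => by rw [Subsingleton.elim x 0]; simp }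
  obtain ⟨S, -, hS⟩ := h (Fin n → ℝ) ⊥ T (1 / 2) (by norm_num)
  refine ⟨(2 : ℝ) • S, fun a => ?_⟩
  rw [LinearMap.smul_apply, norm_smul, Real.norm_eq_abs, abs_two]
  obtain ⟨h1, h2⟩ := hS a
  constructor <;> linarith

omit [NormedSpace ℝ Y] in
theorem GdIn.mono {S S' : Set (V → ℝ)} (h : GdIn S Y) (hS : S' ⊆ S) : GdIn S' Y := by
  have h1 : IsGδ {μ : S | (μ : V → ℝ) ∈ isoClass Y} := h
  have h2 := IsGδ.preimage (continuous_inclusion hS) h1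
  exact h2

theorem Alg.orbit (h : Alg Y) (y : Y) :
    TotallyBounded (Set.range fun U : Y ≃ₗᵢ[ℝ] Y => U y) := by
  rw [Metric.totallyBounded_iff]
  intro ε hε
  obtain ⟨k, z, d, K, hd, hK, H⟩ := h y (ε / 2) (by linarith)
  obtain ⟨t, ht, hc⟩ := Metric.totallyBounded_iff.1 hK.totallyBounded (ε / 2) (by linarith)
  refine ⟨t, ht, ?_⟩
  rintro _ ⟨U, rfl⟩
  obtain ⟨s, hs, hlt⟩ := H (U y) (fun i => U (z i)) (by
    intro c a
    have e1 : c • U y + ∑ i, a i • U (z i) = U (c • y + ∑ i, a i • z i) := by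
      simp only [map_add, map_sum, map_smul]
    simp only [e1, LinearIsometryEquiv.norm_map, sub_self, abs_zero]
    positivity)
  obtain ⟨w, hw, hsw⟩ := Set.mem_iUnion₂.1 (hc hs)
  refine Set.mem_iUnion₂.2 ⟨w, hw, ?_⟩
  rw [Metric.mem_ball, dist_eq_norm] at hsw ⊢
  have := norm_sub_le_norm_sub_add_norm_sub (U y) s w
  show ‖U y - w‖ < ε
  linarith

end

/-- Inner product spaces do not contain `ℓ_∞^n` uniformly, so the class of spaces in the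
classification is not empty. -/
theorem not_hasLinf_inner (X : Type) [NormedAddCommGroup X] [InnerProductSpace ℝ X] :
    ¬ HasLinf X := by
  intro h
  obtain ⟨T, hT⟩ := On.james h (Fin 2) (show (0 : ℝ) < 1 / 10 by norm_num)
  have h1 := abs_le.1 (hT ![1, 0])
  have h2 := abs_le.1 (hT ![0, 1])
  have h3 := abs_le.1 (hT (![1, 0] + ![0, 1]))
  have h4 := abs_le.1 (hT (![1, 0] - ![0, 1]))
  have n1 : ‖(![1, 0] : Fin 2 → ℝ)‖ = 1 := by simp [Pi.norm_def, Fin.univ_succ]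
  have n2 : ‖(![0, 1] : Fin 2 → ℝ)‖ = 1 := by simp [Pi.norm_def, Fin.univ_succ]
  have n3 : ‖(![1, 0] + ![0, 1] : Fin 2 → ℝ)‖ = 1 := by simp [Pi.norm_def, Fin.univ_succ]
  have n4 : ‖(![1, 0] - ![0, 1] : Fin 2 → ℝ)‖ = 1 := by simp [Pi.norm_def, Fin.univ_succ]
  rw [n1] at h1
  rw [n2] at h2
  rw [n3, map_add] at h3
  rw [n4, map_sub] at h4
  have h5 := parallelogram_law_with_norm ℝ (T ![1, 0]) (T ![0, 1])
  nlinarith [norm_nonneg (T ![1, 0] + T ![0, 1]), norm_nonneg (T ![1, 0] - T ![0, 1]),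
    h1.1, h2.1, h3.2, h4.2]

end Pool.Agent.Lib.MP_ab3705_an.GD
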