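import Pool.Agent.Lib.MP_ab3705_an.GD.Stmt

set_option autoImplicit false

namespace Pool.Agent.Lib.MP_ab3705_an.GD.On

section James

variable {Y : Type} [NormedAddCommGroup Y] [NormedSpace ℝ Y]

/-- A map from the cube space with norm at most `C` sending the unit vectors outside the ball. -/
def Cube (Y : Type) [NormedAddCommGroup Y] [NormedSpace ℝ Y] (ι : Type) [Fintype ι]
    [DecidableEq ι] (C : ℝ) : Prop :=
  ∃ T : (ι → ℝ) →ₗ[ℝ] Y, (∀ a, ‖T a‖ ≤ C * ‖a‖) ∧ ∀ i, 1 ≤ ‖T (Pi.single i 1)‖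

theorem cube_split (ι κ : Type) [Fintype ι] [DecidableEq ι] [Fintype κ] [DecidableEq κ]
    {A B : ℝ} (hA : 0 ≤ A) (hB : 0 < B) (h : Cube Y (ι × κ) (A * B)) :
    Cube Y ι A ∨ Cube Y κ B := by
  obtain ⟨T, hT, hT1⟩ := h
  by_cases hk : Cube Y κ B
  · exact Or.inr hk
  left
  let R : ι → (κ → ℝ) →ₗ[ℝ] (ι × κ → ℝ) := fun i =>
    { toFun := fun a p => if p.1 = i then a p.2 else 0
      map_add' := fun a b => by ext p; by_cases hp : p.1 = i <;> simp [hp]
      map_smul' := fun c a => by ext p; by_cases hp : p.1 = i <;> simp [hp] }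
  have hR : ∀ i k, R i (Pi.single k 1) = Pi.single (i, k) 1 := by
    intro i k
    ext ⟨p, q⟩
    by_cases hp : p = i <;> by_cases hq : q = k <;> simp [R, hp, hq]
  have key : ∀ i, ∃ a : κ → ℝ, ‖a‖ ≤ 1 ∧ B ≤ ‖T (R i a)‖ := by
    intro i
    by_contra hc
    push Not at hc
    apply hk
    refine ⟨T.comp (R i), fun a => ?_, fun k => ?_⟩
    · by_cases ha : a = 0
      · simp [ha]
      · have hp : 0 < ‖a‖ := norm_pos_iff.2 ha
        have h1 := hc (‖a‖⁻¹ • a) (by simp [norm_smul, inv_mul_cancel₀ hp.ne'])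
        rw [map_smul, map_smul, norm_smul, norm_inv, norm_norm, inv_mul_lt_iff₀ hp] at h1
        simp only [LinearMap.comp_apply]
        linarith [mul_comm B ‖a‖]
    · simp only [LinearMap.comp_apply, hR]
      exact hT1 _
  choose a ha haB using key
  let Q : (ι → ℝ) →ₗ[ℝ] (ι × κ → ℝ) :=
    { toFun := fun t p => t p.1 * a p.1 p.2
      map_add' := fun s t => by ext p; simp [add_mul]
      map_smul' := fun c t => by ext p; simp [mul_assoc] }
  have hQ : ∀ t, ‖Q t‖ ≤ ‖t‖ := by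
    intro t
    refine (pi_norm_le_iff_of_nonneg (norm_nonneg _)).2 fun p => ?_
    have h1 := norm_le_pi_norm t p.1
    have h2 := (norm_le_pi_norm (a p.1) p.2).trans (ha p.1)
    change ‖t p.1 * a p.1 p.2‖ ≤ _
    rw [norm_mul]
    nlinarith [norm_nonneg (t p.1), norm_nonneg (a p.1 p.2)]
  have hQ1 : ∀ i, Q (Pi.single i 1) = R i (a i) := by
    intro i
    ext ⟨p, q⟩
    by_cases hp : p = i
    · subst hp; simp [Q, R]
    · simp [Q, R, hp]
  refine ⟨B⁻¹ • T.comp Q, fun t => ?_, fun i => ?_⟩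
  · simp only [LinearMap.smul_apply, LinearMap.comp_apply, norm_smul, norm_inv,
      Real.norm_of_nonneg hB.le]
    rw [inv_mul_le_iff₀ hB]
    have h1 := hT (Q t)
    have h2 := mul_le_mul_of_nonneg_left (hQ t) (mul_nonneg hA hB.le)
    nlinarith
  · simp only [LinearMap.smul_apply, LinearMap.comp_apply, norm_smul, norm_inv,
      Real.norm_of_nonneg hB.le, hQ1]
    rw [le_inv_mul_iff₀ hB]
    simpa using haB i

theorem cube_of_has (h : HasLinf Y) :
    ∃ C : ℝ, ∀ (ι : Type) [Fintype ι] [DecidableEq ι], Cube Y ι C := by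
  obtain ⟨C, hC⟩ := h
  refine ⟨C, fun ι _ _ => ?_⟩
  obtain ⟨T, hT⟩ := hC (Fintype.card ι)
  let e := Fintype.equivFin ι
  have hn : ∀ a : ι → ℝ, ‖LinearMap.funLeft ℝ ℝ e.symm a‖ = ‖a‖ := by
    intro a
    apply le_antisymm
    · exact (pi_norm_le_iff_of_nonneg (norm_nonneg _)).2 fun j => norm_le_pi_norm a _
    · refine (pi_norm_le_iff_of_nonneg (norm_nonneg _)).2 fun i => ?_
      have := norm_le_pi_norm (LinearMap.funLeft ℝ ℝ e.symm a) (e i)
      simpa [LinearMap.funLeft_apply] using this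
  refine ⟨T.comp (LinearMap.funLeft ℝ ℝ e.symm), fun a => ?_, fun i => ?_⟩
  · simpa [hn] using (hT (LinearMap.funLeft ℝ ℝ e.symm a)).2
  · have := (hT (LinearMap.funLeft ℝ ℝ e.symm (Pi.single i 1))).1
    rw [hn, Pi.norm_single] at this
    simpa using this

theorem cube_near (h : HasLinf Y) (ι : Type) [Fintype ι] [DecidableEq ι] {η : ℝ} (hη : 0 < η) :
    Cube Y ι (1 + η) := by
  by_contra hc
  obtain ⟨C, hC⟩ := cube_of_has h
  have key : ∀ k : ℕ, ∃ (κ : Type) (_ : Fintype κ) (_ : DecidableEq κ),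
      ¬ Cube Y κ ((1 + η) ^ (k + 1)) := by
    intro k
    induction k with
    | zero => exact ⟨ι, inferInstance, inferInstance, by simpa using hc⟩
    | succ k ih =>
      obtain ⟨κ, _, _, hκ⟩ := ih
      refine ⟨κ × ι, inferInstance, inferInstance, fun h2 => ?_⟩
      rw [pow_succ] at h2
      rcases cube_split κ ι (by positivity) (by positivity) h2 with h3 | h3
      · exact hκ h3
      · exact hc h3
  obtain ⟨k, hk⟩ := pow_unbounded_of_one_lt C (show 1 < 1 + η by linarith)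
  obtain ⟨κ, _, _, hκ⟩ := key k
  obtain ⟨T, hT, hT1⟩ := hC κ
  refine hκ ⟨T, fun a => (hT a).trans (mul_le_mul_of_nonneg_right ?_ (norm_nonneg _)), hT1⟩
  have : (1 + η) ^ k ≤ (1 + η) ^ (k + 1) := pow_le_pow_right₀ (by linarith) (Nat.le_succ k)
  linarith

theorem james (h : HasLinf Y) (ι : Type) [Fintype ι] {η : ℝ} (hη : 0 < η) :
    ∃ T : (ι → ℝ) →ₗ[ℝ] Y, ∀ a, |‖T a‖ - ‖a‖| ≤ η * ‖a‖ := by
  classical
  obtain ⟨T, hT, hT1⟩ := cube_near h ι hη
  refine ⟨T, fun a => ?_⟩
  rw [abs_le]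
  refine ⟨?_, by linarith [hT a]⟩
  by_cases ha : a = 0
  · simp [ha]
  have hne : Nonempty ι := by
    by_contra hn
    rw [not_nonempty_iff] at hn
    exact ha (Subsingleton.elim _ _)
  obtain ⟨i, hi⟩ := Finite.exists_max fun i => ‖a i‖
  have hia : ‖a i‖ = ‖a‖ :=
    le_antisymm (norm_le_pi_norm a i) ((pi_norm_le_iff_of_nonneg (norm_nonneg _)).2 hi)
  let b : ι → ℝ := (2 * a i) • Pi.single i 1 - a
  have hb : ‖b‖ ≤ ‖a‖ := by
    refine (pi_norm_le_iff_of_nonneg (norm_nonneg _)).2 fun j => ?_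
    by_cases hj : j = i
    · subst hj
      have : b j = a j := by simp [b]; ring
      rw [this, hia]
    · have : b j = -a j := by simp [b, hj]
      rw [this, norm_neg]
      exact norm_le_pi_norm a j
  have h1 : (2 * a i) • T (Pi.single i 1) = T a + T b := by
    simp [b]
  have h2 : 2 * ‖a‖ ≤ ‖T a + T b‖ := by
    rw [← h1, norm_smul, norm_mul, hia]
    have := hT1 i
    have h3 : ‖(2 : ℝ)‖ = 2 := by simp
    rw [h3]
    nlinarith [norm_nonneg a]
  have h3 := norm_add_le (T a) (T b)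
  have h4 := hT b
  have h5 := mul_le_mul_of_nonneg_left hb (show 0 ≤ 1 + η by linarith)
  linarith

end James

section Comb

variable {X : Type} [AddCommGroup X] [Module ℝ X]

/-- Rational combinations of a sequence, as an additive map. -/
noncomputable def cb (x : ℕ → X) : V →+ X :=
  Finsupp.liftAddHom fun i =>
    (LinearMap.toSpanSingleton ℝ X (x i)).toAddMonoidHom.comp (Rat.castHom ℝ).toAddMonoidHom

theorem cb_single (x : ℕ → X) (i : ℕ) (q : ℚ) : cb x (Finsupp.single i q) = (q : ℝ) • x i := by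
  simp [cb]

theorem cb_apply (x : ℕ → X) (v : V) : cb x v = ∑ i ∈ v.support, (v i : ℝ) • x i := by
  simp [cb, Finsupp.sum]

theorem map_q (T : V →+ X) (q : ℚ) (v : V) : T (q • v) = (q : ℝ) • T v := by
  simpa using map_ratCast_smul T ℚ ℝ q v

theorem cb_self (T : V →+ X) : cb (fun i => T (Finsupp.single i 1)) = T := by
  refine Finsupp.addHom_ext fun i q => ?_
  rw [cb_single, ← map_q]
  simp

end Comb

end Pool.Agent.Lib.MP_ab3705_an.GD.On
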