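import Pool.Agent.Lib.MP_ab3705_an.GD.OnlyA

set_option autoImplicit false

namespace Pool.Agent.Lib.MP_ab3705_an.GD.On

open Filter Topology

theorem exists_indep : ∃ ξ : ℕ → ℝ, LinearIndependent ℚ ξ := by
  let b := Module.Basis.ofVectorSpace ℚ ℝ
  have hinf : Infinite (Module.Basis.ofVectorSpaceIndex ℚ ℝ) := by
    rw [Cardinal.infinite_iff, b.mk_eq_rank'', Real.rank_rat_real]
    exact Cardinal.aleph0_le_continuum
  exact ⟨b ∘ Infinite.natEmbedding _,
    b.linearIndependent.comp _ (Infinite.natEmbedding _).injective⟩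

theorem exists_rat_mul {ξ : ℝ} (hξ : ξ ≠ 0) (t : ℝ) {r : ℝ} (hr : 0 < r) :
    ∃ q : ℚ, q ≠ 0 ∧ |(q : ℝ) * ξ - t| < r := by
  have hp : 0 < |ξ| := abs_pos.2 hξ
  have hr' : 0 < r / |ξ| := div_pos hr hp
  have fin : ∀ q : ℚ, |(q : ℝ) - t / ξ| < r / |ξ| → |(q : ℝ) * ξ - t| < r := by
    intro q hq
    have : (q : ℝ) * ξ - t = (q - t / ξ) * ξ := by field_simp
    rw [this, abs_mul]
    rwa [lt_div_iff₀ hp] at hq
  obtain ⟨q, h1, h2⟩ := exists_rat_btwn (show t / ξ < t / ξ + r / |ξ| by linarith)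
  by_cases hq : q = 0
  · obtain ⟨q', h3, h4⟩ := exists_rat_btwn h2
    refine ⟨q', ?_, fin q' (by rw [abs_lt]; constructor <;> linarith)⟩
    intro h0
    rw [h0, hq] at h3
    exact lt_irrefl _ h3
  · exact ⟨q, hq, fin q (by rw [abs_lt]; constructor <;> linarith)⟩

variable {Y : Type} [NormedAddCommGroup Y] [NormedSpace ℝ Y]

theorem exists_inj [Nontrivial Y] (t : ℕ → Y) (r : ℕ → ℝ) (hr : ∀ i, 0 < r i) :
    ∃ y : ℕ → Y, (∀ i, ‖y i - t i‖ ≤ r i) ∧ Function.Injective (cb y) := by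
  obtain ⟨z, hz⟩ := exists_norm_eq Y (zero_le_one (α := ℝ))
  obtain ⟨g, -, hg⟩ := exists_dual_vector'' ℝ z
  have hg1 : g z = 1 := by simpa [hz] using hg
  obtain ⟨ξ, hξ⟩ := exists_indep
  choose q hq0 hq using fun i => exists_rat_mul (hξ.ne_zero i) (g (t i)) (hr i)
  refine ⟨fun i => t i + ((q i : ℝ) * ξ i - g (t i)) • z, fun i => ?_, ?_⟩
  · simp only [add_sub_cancel_left, norm_smul, hz, mul_one, Real.norm_eq_abs]
    exact (hq i).le
  · rw [injective_iff_map_eq_zero]
    intro v hv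
    have h1 := congrArg g hv
    rw [cb_apply, map_sum, map_zero] at h1
    simp only [map_smul, map_add, hg1, smul_eq_mul, mul_one, add_sub_cancel] at h1
    have h2 : ∑ i ∈ v.support, (v i * q i) • ξ i = 0 := by
      rw [← h1]
      refine Finset.sum_congr rfl fun i _ => ?_
      rw [Rat.smul_def]
      push_cast
      ring
    have h3 := linearIndependent_iff'.1 hξ v.support (fun i => v i * q i) h2
    ext i
    by_contra hi
    have hi' : i ∈ v.support := Finsupp.mem_support_iff.2 hi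
    rcases mul_eq_zero.1 (h3 i hi') with h4 | h4
    · exact hi h4
    · exact hq0 i h4

/-- The norms on `V` pulled back from `Y` along injective additive maps with dense range. -/
def D0 (Y : Type) [NormedAddCommGroup Y] : Set (V → ℝ) :=
  {μ | ∃ T : V →+ Y, Function.Injective T ∧ DenseRange T ∧ ∀ v, ‖T v‖ = μ v}

theorem exists_bd (S : Finset V) : ∃ N : ℕ, ∀ v ∈ S, ∀ i ∈ v.support, i < N := by
  refine ⟨(S.sup fun v => v.support.sup id) + 1, fun v hv i hi => Nat.lt_succ_of_le ?_⟩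
  exact (Finset.le_sup (f := id) hi).trans
    (Finset.le_sup (f := fun v : V => v.support.sup id) hv)

theorem dens [TopologicalSpace.SeparableSpace Y] (hY : ¬ FiniteDimensional ℝ Y) (h : HasLinf Y)
    (ι : Type) [Fintype ι] (A : V →+ (ι → ℝ)) (S : Finset V) {δ : ℝ} (hδ : 0 < δ) :
    ∃ μ ∈ D0 Y, ∀ v ∈ S, |μ v - ‖A v‖| < δ := by
  have hnt : Nontrivial Y := by
    by_contra hc
    rw [not_nontrivial_iff_subsingleton] at hc
    exact hY inferInstance
  obtain ⟨N, hN⟩ := exists_bd S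
  let l : V → ℝ := fun v => ∑ i ∈ v.support, |(v i : ℝ)|
  have hl : ∀ v, 0 ≤ l v := fun v => Finset.sum_nonneg fun _ _ => abs_nonneg _
  let M : ℝ := (∑ v ∈ S, (l v + ‖A v‖)) + 1
  have hM : ∀ v ∈ S, l v + ‖A v‖ < M := by
    intro v hv
    have := Finset.single_le_sum (f := fun v => l v + ‖A v‖)
      (fun v _ => add_nonneg (hl v) (norm_nonneg _)) hv
    simp only [M]
    linarith
  have hM0 : 0 < M := by
    have : 0 ≤ ∑ v ∈ S, (l v + ‖A v‖) :=
      Finset.sum_nonneg fun v _ => add_nonneg (hl v) (norm_nonneg _)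
    simp only [M]
    linarith
  have hη : 0 < δ / M := div_pos hδ hM0
  obtain ⟨J, hJ⟩ := james h ι hη
  obtain ⟨d, hd⟩ := TopologicalSpace.exists_dense_seq Y
  let t : ℕ → Y := fun i =>
    if i < N then J (A (Finsupp.single i 1)) else d (Nat.unpair (i - N)).1
  obtain ⟨y, hy, hinj⟩ := exists_inj t (fun i => δ / M / (i + 1)) (fun i => by positivity)
  refine ⟨fun v => ‖cb y v‖, ⟨cb y, hinj, ?_, fun _ => rfl⟩, fun v hv => ?_⟩
  · rw [Metric.denseRange_iff]
    intro x ε hε
    obtain ⟨m, hm⟩ := Metric.denseRange_iff.1 hd x (ε / 2) (by linarith)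
    obtain ⟨k, hk⟩ := exists_nat_gt (δ / M / (ε / 2))
    refine ⟨Finsupp.single (N + Nat.pair m k) 1, ?_⟩
    have h1 := hy (N + Nat.pair m k)
    have h2 : t (N + Nat.pair m k) = d m := by simp [t]
    rw [h2] at h1
    have h3 : (k : ℝ) ≤ ((N + Nat.pair m k : ℕ) : ℝ) + 1 := by
      have := Nat.right_le_pair m k
      exact_mod_cast (by omega : k ≤ N + Nat.pair m k + 1)
    have h4 : δ / M / (((N + Nat.pair m k : ℕ) : ℝ) + 1) < ε / 2 := by
      rw [div_lt_iff₀ (by positivity)]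
      rw [div_lt_iff₀ (by linarith)] at hk
      nlinarith
    rw [cb_single]
    simp only [Rat.cast_one, one_smul]
    have h5 := dist_triangle x (d m) (y (N + Nat.pair m k))
    rw [dist_comm (d m), dist_eq_norm (y _)] at h5
    linarith
  · have h1 : J (A v) = ∑ i ∈ v.support, (v i : ℝ) • t i := by
      conv_lhs => rw [← cb_self A, cb_apply, map_sum]
      refine Finset.sum_congr rfl fun i hi => ?_
      simp [t, hN v hv i hi]
    have h2 : ‖cb y v - J (A v)‖ ≤ δ / M * l v := by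
      rw [h1, cb_apply, ← Finset.sum_sub_distrib, Finset.mul_sum]
      refine norm_sum_le_of_le _ fun i _ => ?_
      rw [← smul_sub, norm_smul, Real.norm_eq_abs, mul_comm]
      refine mul_le_mul_of_nonneg_right ((hy i).trans ?_) (abs_nonneg _)
      exact div_le_self hη.le (by simp)
    have h3 := abs_norm_sub_norm_le (cb y v) (J (A v))
    have h4 := hJ (A v)
    have h5 := mul_lt_mul_of_pos_left (hM v hv) hη
    have h6 : δ / M * M = δ := by field_simp
    have h7 := abs_sub_le ‖cb y v‖ ‖J (A v)‖ ‖A v‖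
    change |‖cb y v‖ - ‖A v‖| < δ
    nlinarith

theorem mem_closure_of_approx {A : Set (V → ℝ)} {μ : V → ℝ}
    (h : ∀ (S : Finset V) (δ : ℝ), 0 < δ → ∃ ν ∈ A, ∀ v ∈ S, |ν v - μ v| < δ) :
    μ ∈ closure A := by
  classical
  choose f hf hfS using fun p : Finset V × ℕ => h p.1 (1 / ((p.2 : ℝ) + 1)) (by positivity)
  refine mem_closure_of_tendsto (b := atTop) (f := f) ?_ (Eventually.of_forall hf)
  rw [tendsto_pi_nhds]
  intro v
  rw [Metric.tendsto_nhds]
  intro ε hε
  obtain ⟨n, hn⟩ := exists_nat_one_div_lt hε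
  filter_upwards [eventually_ge_atTop (({v} : Finset V), n)] with p hp
  have h1 := hfS p v (hp.1 (Finset.mem_singleton_self v))
  have h2 : 1 / ((p.2 : ℝ) + 1) ≤ 1 / ((n : ℝ) + 1) := Nat.one_div_le_one_div hp.2
  rw [Real.dist_eq]
  linarith

theorem baire {ι : Type} [Countable ι] {D : Set (V → ℝ)} (hne : D.Nonempty)
    (U : ι → Set (V → ℝ)) (hU : ∀ i, IsOpen (U i))
    (hd : ∀ i, D ⊆ closure (U i ∩ D)) : ∃ μ ∈ closure D, ∀ i, μ ∈ U i := by
  have : TopologicalSpace.IsCompletelyMetrizableSpace (closure D) :=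
    isClosed_closure.isCompletelyMetrizableSpace
  have : Nonempty (closure D) := hne.closure.to_subtype
  have h1 : Dense (⋂ i, (Subtype.val ⁻¹' U i : Set (closure D))) := by
    refine dense_iInter_of_isOpen (fun i => (hU i).preimage continuous_subtype_val) fun i => ?_
    rw [Subtype.dense_iff]
    refine (closure_minimal (hd i) isClosed_closure).trans (closure_mono ?_)
    rintro x ⟨hx, hxD⟩
    exact ⟨⟨x, subset_closure hxD⟩, hx, rfl⟩
  obtain ⟨μ, hμ⟩ := h1.nonempty
  exact ⟨μ, μ.2, fun i => Set.mem_iInter.1 hμ i⟩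

theorem generic_dense {A D : Set (V → ℝ)} : D ⊆ closure ((A ∪ (closure (A ∩ D))ᶜ) ∩ D) := by
  intro x hx
  by_cases h : x ∈ closure (A ∩ D)
  · exact closure_mono (Set.inter_subset_inter_left _ Set.subset_union_left) h
  · exact subset_closure ⟨Or.inr h, hx⟩

end Pool.Agent.Lib.MP_ab3705_an.GD.On
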