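import Pool.Agent.Lib.MP_ab3705_an.GD.OnlyB

set_option autoImplicit false

namespace Pool.Agent.Lib.MP_ab3705_an.GD.On

open Filter Topology

theorem pn_of_class {Z : Type} [NormedAddCommGroup Z] [NormedSpace ℝ Z] {μ : V → ℝ}
    (h : μ ∈ isoClass Z) : μ ∈ Pn := by
  obtain ⟨T, -, hT⟩ := h
  refine ⟨fun v => hT v ▸ norm_nonneg _, fun q v => ?_, fun u v => ?_⟩
  · rw [← hT, ← hT, map_q, norm_smul, Real.norm_eq_abs]
  · rw [← hT, ← hT, ← hT, map_add]
    exact norm_add_le _ _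

theorem class_of_seminorm (p : Seminorm ℝ (ℕ →₀ ℝ)) :
    ∃ (Z : Type) (_ : NormedAddCommGroup Z) (_ : NormedSpace ℝ Z) (_ : CompleteSpace Z),
      (fun v => p (cb (fun i => Finsupp.single i (1 : ℝ)) v)) ∈ isoClass Z := by
  let _ : SeminormedAddCommGroup (ℕ →₀ ℝ) :=
    AddGroupSeminorm.toSeminormedAddCommGroup p.toAddGroupSeminorm
  let _ : NormedSpace ℝ (ℕ →₀ ℝ) := ⟨fun c x => (map_smul_eq_mul p c x).le⟩
  let r : V →+ (ℕ →₀ ℝ) := cb fun i => Finsupp.single i (1 : ℝ)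
  have hr : DenseRange r := by
    intro w
    induction w using Finsupp.induction_linear with
    | zero => exact subset_closure ⟨0, map_zero r⟩
    | add f g hf hg => exact r.range.topologicalClosure.add_mem hf hg
    | single i a =>
      have hc : Continuous fun a : ℝ => a • Finsupp.single i (1 : ℝ) :=
        continuous_id.smul continuous_const
      have h1 : a • Finsupp.single i (1 : ℝ) ∈ closure (Set.range r) :=
        Rat.denseRange_cast.induction_on
          (p := fun a : ℝ => a • Finsupp.single i (1 : ℝ) ∈ closure (Set.range r)) a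
          (isClosed_closure.preimage hc)
          fun q => subset_closure ⟨Finsupp.single i q, cb_single _ i q⟩
      simpa using h1
  refine ⟨UniformSpace.Completion (ℕ →₀ ℝ), inferInstance, inferInstance, inferInstance,
    (UniformSpace.Completion.toCompl (α := ℕ →₀ ℝ)).comp r, ?_, fun v => ?_⟩
  · exact UniformSpace.Completion.denseRange_coe.comp hr
      (UniformSpace.Completion.continuous_coe _)
  · exact UniformSpace.Completion.norm_coe (r v)

variable {Y : Type} [NormedAddCommGroup Y] [NormedSpace ℝ Y]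

theorem class_of_closure {μ : V → ℝ} (h : μ ∈ closure (D0 Y)) :
    ∃ (Z : Type) (_ : NormedAddCommGroup Z) (_ : NormedSpace ℝ Z) (_ : CompleteSpace Z),
      μ ∈ isoClass Z := by
  obtain ⟨ν, hν, hlim⟩ := mem_closure_iff_seq_limit.1 h
  choose T _ _ hT using hν
  rw [tendsto_pi_nhds] at hlim
  let L : ℕ → (ℕ →₀ ℝ) →ₗ[ℝ] Y := fun n =>
    Finsupp.linearCombination ℝ fun i => T n (Finsupp.single i 1)
  have hb : ∀ w, ∃ M : ℝ, ∀ n, ‖L n w‖ ≤ M := by
    intro w
    induction w using Finsupp.induction_linear with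
    | zero => exact ⟨0, fun n => by simp⟩
    | add f g hf hg =>
      obtain ⟨M, hM⟩ := hf
      obtain ⟨M', hM'⟩ := hg
      refine ⟨M + M', fun n => ?_⟩
      rw [map_add]
      exact (norm_add_le _ _).trans (add_le_add (hM n) (hM' n))
    | single i a =>
      obtain ⟨M, hM⟩ := (hlim (Finsupp.single i 1)).bddAbove_range
      refine ⟨‖a‖ * M, fun n => ?_⟩
      simp only [L, Finsupp.linearCombination_single, norm_smul, hT]
      exact mul_le_mul_of_nonneg_left (hM ⟨n, rfl⟩) (norm_nonneg _)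
  have hex : ∀ w, ∃ x : ℝ, Tendsto (fun n => ‖L n w‖) (hyperfilter ℕ : Filter ℕ) (𝓝 x) := by
    intro w
    obtain ⟨M, hM⟩ := hb w
    obtain ⟨x, -, hx⟩ := (isCompact_Icc (a := (0 : ℝ)) (b := M)).ultrafilter_le_nhds
      ((hyperfilter ℕ).map fun n => ‖L n w‖) (by
        rw [le_principal_iff]
        exact Filter.mem_map.2 (univ_mem' fun n => ⟨norm_nonneg _, hM n⟩))
    exact ⟨x, hx⟩
  choose f hf using hex
  let p : Seminorm ℝ (ℕ →₀ ℝ) := Seminorm.of f
    (fun x y => le_of_tendsto_of_tendsto' (hf (x + y)) ((hf x).add (hf y)) fun n => by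
      rw [map_add]; exact norm_add_le _ _)
    (fun a x => tendsto_nhds_unique (hf (a • x)) (by
      simpa [norm_smul] using (hf x).const_mul ‖a‖))
  obtain ⟨Z, i1, i2, i3, hZ⟩ := class_of_seminorm p
  refine ⟨Z, i1, i2, i3, ?_⟩
  convert hZ using 1
  funext v
  have h1 : ∀ n, L n (cb (fun i => Finsupp.single i (1 : ℝ)) v) = T n v := by
    intro n
    conv_rhs => rw [← cb_self (T n)]
    simp [cb_apply, L]
  have h2 := hf (cb (fun i => Finsupp.single i (1 : ℝ)) v)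
  simp only [h1, hT] at h2
  exact tendsto_nhds_unique ((hlim v).mono_left Nat.hyperfilter_le_atTop) h2

theorem not_fd_of_gurarii (h : IsGurarii Y) : ¬ FiniteDimensional ℝ Y := by
  intro hfd
  let T : (⊥ : Submodule ℝ (Fin (Module.finrank ℝ Y + 1) → ℝ)) →ₗᵢ[ℝ] Y :=
    { toLinearMap := 0
      norm_map' := fun x => by rw [Subsingleton.elim x 0]; simp }
  obtain ⟨S, -, hS⟩ := h _ ⊥ T (1 / 2) (by norm_num)
  have hinj : Function.Injective S := by
    rw [injective_iff_map_eq_zero]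
    intro x hx
    have := (hS x).1
    rw [hx, norm_zero] at this
    exact norm_le_zero_iff.1 (by linarith)
  have := LinearMap.finrank_le_finrank_of_injective hinj
  simp at this

theorem net_bound {F Z : Type} [NormedAddCommGroup F] [NormedSpace ℝ F] [FiniteDimensional ℝ F]
    [NormedAddCommGroup Z] [NormedSpace ℝ Z] (S : F →ₗ[ℝ] Z) {γ : ℝ} (hγ : 0 < γ)
    (hγ1 : γ ≤ 1 / 2) (h : ∀ x : F, ‖x‖ = 1 → ∃ f, ‖x - f‖ ≤ γ ∧ |‖S f‖ - ‖f‖| ≤ 5 * γ) (x : F) :
    (1 - 14 * γ) * ‖x‖ ≤ ‖S x‖ ∧ ‖S x‖ ≤ (1 + 14 * γ) * ‖x‖ := by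
  let S' : F →L[ℝ] Z := LinearMap.toContinuousLinearMap S
  have h1 : ∀ x : F, ‖x‖ = 1 → |‖S x‖ - 1| ≤ 6 * γ + ‖S'‖ * γ := by
    intro x hx
    obtain ⟨f, hf, hSf⟩ := h x hx
    have e1 := abs_norm_sub_norm_le x f
    have e2 := abs_norm_sub_norm_le (S x) (S f)
    have e3 : ‖S x - S f‖ ≤ ‖S'‖ * γ := by
      rw [← map_sub]
      exact (S'.le_opNorm (x - f)).trans (mul_le_mul_of_nonneg_left hf (norm_nonneg _))
    rw [hx] at e1
    rw [abs_le] at *
    constructor <;> linarith [e1.1, e1.2, e2.1, e2.2, hSf.1, hSf.2]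
  have h2 : ‖S'‖ ≤ 1 + 6 * γ + ‖S'‖ * γ :=
    ContinuousLinearMap.opNorm_le_of_unit_norm (by positivity) fun x hx => by
      have := (abs_le.1 (h1 x hx)).2
      change ‖S x‖ ≤ _
      linarith
  have h3 : ‖S'‖ ≤ 8 := by nlinarith [norm_nonneg S']
  by_cases hx : x = 0
  · simp [hx]
  have hp : 0 < ‖x‖ := norm_pos_iff.2 hx
  have h4 := h1 (‖x‖⁻¹ • x) (by simp [norm_smul, inv_mul_cancel₀ hp.ne'])
  rw [map_smul, norm_smul, norm_inv, norm_norm, abs_le] at h4
  have h5 : ‖S x‖ = ‖x‖⁻¹ * ‖S x‖ * ‖x‖ := by field_simp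
  have h6 : ‖S'‖ * γ ≤ 8 * γ := mul_le_mul_of_nonneg_right h3 hγ.le
  rw [h5]
  constructor <;> apply mul_le_mul_of_nonneg_right _ hp.le <;> linarith [h4.1, h4.2]

section Pairs

variable {F Z : Type} [NormedAddCommGroup F] [NormedSpace ℝ F] [NormedAddCommGroup Z]
  [NormedSpace ℝ Z] {E : Submodule ℝ F} (T : E →ₗᵢ[ℝ] Z)

theorem pair_left (z : Z) : ∃ (g : Z →L[ℝ] ℝ) (h : F →L[ℝ] ℝ), ‖g‖ ≤ 1 ∧ ‖h‖ ≤ 1 ∧
    (∀ e : E, g (T e) = h e) ∧ g z = ‖z‖ := by
  obtain ⟨g, hg, hgz⟩ := exists_dual_vector'' ℝ z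
  obtain ⟨h, hh, hn⟩ := exists_extension_norm_eq E (g.comp T.toContinuousLinearMap)
  refine ⟨g, h, hg, ?_, fun e => (hh e).symm, hgz⟩
  rw [hn]
  refine ContinuousLinearMap.opNorm_le_bound _ zero_le_one fun e => ?_
  have := g.le_of_opNorm_le hg (T e)
  simpa using this

theorem pair_right (f : F) : ∃ (g : Z →L[ℝ] ℝ) (h : F →L[ℝ] ℝ), ‖g‖ ≤ 1 ∧ ‖h‖ ≤ 1 ∧
    (∀ e : E, g (T e) = h e) ∧ h f = ‖f‖ := by
  obtain ⟨h, hh, hhf⟩ := exists_dual_vector'' ℝ f
  obtain ⟨g, hg, hn⟩ := exists_extension_norm_eq (LinearMap.range T.toLinearMap)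
    ((h.comp E.subtypeL).comp T.equivRange.symm.toLinearIsometry.toContinuousLinearMap)
  refine ⟨g, h, ?_, hh, fun e => ?_, hhf⟩
  · rw [hn]
    refine ContinuousLinearMap.opNorm_le_bound _ zero_le_one fun e => ?_
    have := h.le_of_opNorm_le hh (T.equivRange.symm e : E)
    rw [← Submodule.coe_norm, T.equivRange.symm.norm_map] at this
    exact this
  · have := hg (T.equivRange e)
    simpa using this

end Pairs

end Pool.Agent.Lib.MP_ab3705_an.GD.On
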