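import Pool.Agent.Lib.MP_ab3705_an.GD.Stmt

set_option autoImplicit false

namespace Pool.Agent.Lib.MP_ab3705_an.GD

section
variable {X T : Type} [AddCommGroup X] [Module ℝ X] [AddCommGroup T] [Module ℝ T]

theorem qs_bdd (P : Seminorm ℝ (X × T)) (W : T →ₗ[ℝ] X) (u : X) :
    BddBelow (Set.range fun t : T => P (u - W t, t)) :=
  ⟨0, by rintro _ ⟨t, rfl⟩; exact apply_nonneg P _⟩

/-- Infimal convolution along `W`. -/
noncomputable def qs (P : Seminorm ℝ (X × T)) (W : T →ₗ[ℝ] X) : Seminorm ℝ X :=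
  Seminorm.ofSMulLE (fun u => ⨅ t : T, P (u - W t, t))
    (by
      apply le_antisymm
      · refine (ciInf_le (qs_bdd P W 0) 0).trans ?_
        rw [map_zero W, sub_zero]
        exact (map_zero P).le
      · exact le_ciInf fun t => apply_nonneg P _)
    (by
      intro u v
      refine le_ciInf_add_ciInf fun s t => ?_
      refine (ciInf_le (qs_bdd P W (u + v)) (s + t)).trans ?_
      have : ((u + v - W (s + t), s + t) : X × T) = (u - W s, s) + (v - W t, t) := by
        simp only [map_add, Prod.mk_add_mk, Prod.mk.injEq, and_true]; abel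
      rw [this]; exact map_add_le_add P _ _)
    (by
      intro r u
      rw [Real.mul_iInf_of_nonneg (norm_nonneg r)]
      refine le_ciInf fun t => ?_
      refine (ciInf_le (qs_bdd P W (r • u)) (r • t)).trans ?_
      have : ((r • u - W (r • t), r • t) : X × T) = r • (u - W t, t) := by
        simp only [map_smul, Prod.smul_mk, smul_sub]
      rw [this, map_smul_eq_mul])

theorem qs_le (P : Seminorm ℝ (X × T)) (W : T →ₗ[ℝ] X) (u : X) (t : T) :
    qs P W u ≤ P (u - W t, t) := ciInf_le (qs_bdd P W u) t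

theorem le_qs (P : Seminorm ℝ (X × T)) (W : T →ₗ[ℝ] X) (u : X) (c : ℝ)
    (h : ∀ t, c ≤ P (u - W t, t)) : c ≤ qs P W u := le_ciInf h

theorem qs_lt (P : Seminorm ℝ (X × T)) (W : T →ₗ[ℝ] X) (u : X) (c : ℝ) (h : qs P W u < c) :
    ∃ t, P (u - W t, t) < c := exists_lt_of_ciInf_lt h

theorem mink (a b c d : ℝ) :
    √((a + c) ^ 2 + (b + d) ^ 2) ≤ √(a ^ 2 + b ^ 2) + √(c ^ 2 + d ^ 2) := by
  have h := norm_add_le ((a : ℂ) + (b : ℂ) * Complex.I) ((c : ℂ) + (d : ℂ) * Complex.I)
  rw [Complex.norm_add_mul_I, Complex.norm_add_mul_I] at h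
  have e : ((a : ℂ) + (b : ℂ) * Complex.I) + ((c : ℂ) + (d : ℂ) * Complex.I)
      = ((a + c : ℝ) : ℂ) + ((b + d : ℝ) : ℂ) * Complex.I := by push_cast; ring
  rw [e, Complex.norm_add_mul_I] at h
  exact h

/-- The `ℓ_2`-sum of `N` and `L |·|`. -/
noncomputable def P2 (N : Seminorm ℝ X) (L : ℝ) : Seminorm ℝ (X × ℝ) :=
  Seminorm.of (fun p => √(N p.1 ^ 2 + (L * p.2) ^ 2))
    (by
      intro p q
      refine le_trans ?_ (mink (N p.1) (L * p.2) (N q.1) (L * q.2))
      apply Real.sqrt_le_sqrt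
      have h1 : N (p + q).1 ≤ N p.1 + N q.1 := map_add_le_add N _ _
      have h2 : 0 ≤ N (p + q).1 := apply_nonneg N _
      have h3 : L * (p + q).2 = L * p.2 + L * q.2 := by simp [mul_add]
      rw [h3]
      have := pow_le_pow_left₀ h2 h1 2
      linarith)
    (by
      intro r p
      have h1 : N (r • p).1 = ‖r‖ * N p.1 := map_smul_eq_mul N r p.1
      have h2 : (L * (r • p).2) ^ 2 = ‖r‖ ^ 2 * (L * p.2) ^ 2 := by
        simp only [Prod.smul_snd, smul_eq_mul, Real.norm_eq_abs, sq_abs]; ring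
      rw [h1, h2, mul_pow, ← mul_add, Real.sqrt_mul (sq_nonneg _), Real.sqrt_sq (norm_nonneg r)])

theorem P2_apply (N : Seminorm ℝ X) (L : ℝ) (u : X) (t : ℝ) :
    P2 N L (u, t) = √(N u ^ 2 + (L * t) ^ 2) := rfl

/-- The weighted `ℓ_1`-sum. -/
noncomputable def P1 {J : Type} [Fintype J] (M : Seminorm ℝ X) (c : J → ℝ) (hc : ∀ j, 0 ≤ c j) :
    Seminorm ℝ (X × (J → ℝ)) :=
  Seminorm.of (fun p => M p.1 + ∑ j, |p.2 j| * c j)
    (by
      intro p q
      have h1 : M (p + q).1 ≤ M p.1 + M q.1 := map_add_le_add M _ _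
      have h2 : ∑ j, |(p + q).2 j| * c j ≤ ∑ j, |p.2 j| * c j + ∑ j, |q.2 j| * c j := by
        rw [← Finset.sum_add_distrib]
        refine Finset.sum_le_sum fun j _ => ?_
        rw [← add_mul]
        exact mul_le_mul_of_nonneg_right (abs_add_le _ _) (hc j)
      linarith)
    (by
      intro r p
      have h1 : M (r • p).1 = ‖r‖ * M p.1 := map_smul_eq_mul M r p.1
      rw [h1, mul_add, Finset.mul_sum]
      congr 1
      refine Finset.sum_congr rfl fun j _ => ?_
      simp only [Prod.smul_snd, Pi.smul_apply, smul_eq_mul, abs_mul, Real.norm_eq_abs]; ring)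

theorem P1_apply {J : Type} [Fintype J] (M : Seminorm ℝ X) (c : J → ℝ) (hc : ∀ j, 0 ≤ c j)
    (u : X) (t : J → ℝ) : P1 M c hc (u, t) = M u + ∑ j, |t j| * c j := rfl

theorem sn_sum_le {J : Type} [Fintype J] (M : Seminorm ℝ X) (t : J → ℝ) (w : J → X) :
    M (∑ j, t j • w j) ≤ ∑ j, |t j| * M (w j) := by
  classical
  have : ∀ s : Finset J, M (∑ j ∈ s, t j • w j) ≤ ∑ j ∈ s, |t j| * M (w j) := by
    intro s
    induction s using Finset.induction_on with
    | empty => simp
    | insert a s ha ih =>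
      rw [Finset.sum_insert ha, Finset.sum_insert ha]
      refine (map_add_le_add M _ _).trans ?_
      rw [map_smul_eq_mul, Real.norm_eq_abs]
      linarith
  exact this _

theorem sn_sub (M : Seminorm ℝ X) (u v : X) : M u ≤ M (u - v) + M v := by
  have := map_add_le_add M (u - v) v
  simpa using this

/-- Smoothing in one direction. -/
theorem smooth (N : Seminorm ℝ X) (x : X) (L h : ℝ) (hh : 0 ≤ h)
    (hx : N x ≤ h * L) :
    ∃ M : Seminorm ℝ X, (∀ u, M u ≤ N u) ∧ (∀ u, N u ≤ (1 + h) * M u) ∧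
      ∀ (s : X) (d : ℝ), 1 ≤ M s →
        M (s + d • x) + M (s - d • x) ≤ 2 * M s + 2 * (L * d) ^ 2 := by
  let W : ℝ →ₗ[ℝ] X := LinearMap.toSpanSingleton ℝ X x
  have hW : ∀ t, W t = t • x := fun t => rfl
  refine ⟨qs (P2 N L) W, fun u => ?_, fun u => ?_, fun s d hs => ?_⟩
  · refine (qs_le _ _ u 0).trans ?_
    rw [P2_apply]; simp [Real.sqrt_sq (apply_nonneg N u)]
  · have : N u / (1 + h) ≤ qs (P2 N L) W u := by
      refine le_qs _ _ _ _ fun t => ?_
      rw [P2_apply, div_le_iff₀ (by linarith), hW]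
      set R := √(N (u - t • x) ^ 2 + (L * t) ^ 2) with hR
      have h1 : N (u - t • x) ≤ R :=
        Real.le_sqrt_of_sq_le (by nlinarith [sq_nonneg (L * t)])
      have h2 : L * |t| ≤ R := by
        refine Real.le_sqrt_of_sq_le ?_
        have : (L * |t|) ^ 2 = (L * t) ^ 2 := by rw [mul_pow, mul_pow, sq_abs]
        nlinarith [sq_nonneg (N (u - t • x))]
      have h3 : N u ≤ N (u - t • x) + |t| * N x := by
        have := sn_sub N u (t • x)
        rwa [map_smul_eq_mul, Real.norm_eq_abs] at this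
      have h4 : |t| * N x ≤ |t| * (h * L) := mul_le_mul_of_nonneg_left hx (abs_nonneg t)
      have h5 : h * (L * |t|) ≤ h * R := mul_le_mul_of_nonneg_left h2 hh
      nlinarith
    rw [div_le_iff₀ (by linarith)] at this
    linarith
  · set M := qs (P2 N L) W with hM
    have key : ∀ t : ℝ, M (s + d • x) ^ 2 + M (s - d • x) ^ 2
        ≤ 2 * (P2 N L (s - W t, t)) ^ 2 + 2 * (L * d) ^ 2 := by
      intro t
      have h1 := qs_le (P2 N L) W (s + d • x) (t + d)
      have h2 := qs_le (P2 N L) W (s - d • x) (t - d)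
      have e1 : s + d • x - W (t + d) = s - W t := by rw [hW, hW, add_smul]; abel
      have e2 : s - d • x - W (t - d) = s - W t := by rw [hW, hW, sub_smul]; abel
      rw [e1, P2_apply] at h1
      rw [e2, P2_apply] at h2
      rw [P2_apply, Real.sq_sqrt (by positivity)]
      have h3 := pow_le_pow_left₀ (apply_nonneg _ _) h1 2
      have h4 := pow_le_pow_left₀ (apply_nonneg _ _) h2 2
      rw [Real.sq_sqrt (by positivity)] at h3 h4
      nlinarith
    set A := M (s + d • x)
    set B := M (s - d • x)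
    by_contra hcon
    push Not at hcon
    have hlt : M s < (A + B) / 2 - (L * d) ^ 2 := by linarith
    obtain ⟨t, ht⟩ := qs_lt _ _ _ _ hlt
    have hk := key t
    have hge : M s ≤ P2 N L (s - W t, t) := qs_le _ _ _ _
    set R := P2 N L (s - W t, t)
    have hq : 0 ≤ (L * d) ^ 2 := sq_nonneg _
    have h5 : R + (L * d) ^ 2 < (A + B) / 2 := by linarith
    have h6 : (R + (L * d) ^ 2) ^ 2 < ((A + B) / 2) ^ 2 :=
      pow_lt_pow_left₀ h5 (by linarith) two_ne_zero
    nlinarith [sq_nonneg (A - B), mul_nonneg hq (show 0 ≤ R - 1 by linarith), sq_nonneg ((L * d) ^ 2)]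

/-- Pimples. -/
theorem pimple {J : Type} [Fintype J] (M : Seminorm ℝ X) (w : J → X) (c : J → ℝ)
    (hc : ∀ j, 1 ≤ c j) (h : ℝ) (hh : 0 < h) (hw : ∀ j, M (w j) ≤ (1 + h) * c j) :
    ∃ N : Seminorm ℝ X, (∀ u, N u ≤ M u) ∧ (∀ u, M u ≤ (1 + h) * N u) ∧ (∀ j, N (w j) ≤ c j) ∧
      (∀ (u : X) (b : ℝ), (∀ t : J → ℝ, b ≤ M (u - ∑ j, t j • w j) + ∑ j, |t j| * c j) →
        b ≤ N u) ∧
      ∀ (u : X) (ω : ℝ), (1 + h) * N u < M u + ω →
        ∃ t : J → ℝ, (∀ j, |t j| ≤ N u + 1) ∧ h * M (u - ∑ j, t j • w j) < ω := by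
  classical
  have hc0 : ∀ j, 0 ≤ c j := fun j => le_trans zero_le_one (hc j)
  let W : (J → ℝ) →ₗ[ℝ] X := Fintype.linearCombination ℝ w
  have hW : ∀ t, W t = ∑ j, t j • w j := fun t => rfl
  have hup : ∀ (u : X) (t : J → ℝ),
      M u ≤ M (u - W t) + (1 + h) * ∑ j, |t j| * c j := by
    intro u t
    have h1 := sn_sub M u (W t)
    have h2 : M (W t) ≤ ∑ j, |t j| * M (w j) := sn_sum_le M t w
    have h3 : ∑ j, |t j| * M (w j) ≤ (1 + h) * ∑ j, |t j| * c j := by
      rw [Finset.mul_sum]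
      refine Finset.sum_le_sum fun j _ => ?_
      have := mul_le_mul_of_nonneg_left (hw j) (abs_nonneg (t j))
      linarith
    linarith
  refine ⟨qs (P1 M c hc0) W, fun u => ?_, fun u => ?_, fun j => ?_, fun u b hb => ?_,
    fun u ω hω => ?_⟩
  · refine (qs_le _ _ u 0).trans ?_
    rw [P1_apply]; simp
  · have : M u / (1 + h) ≤ qs (P1 M c hc0) W u := by
      refine le_qs _ _ _ _ fun t => ?_
      rw [P1_apply, div_le_iff₀ (by linarith)]
      have h1 := hup u t
      have h2 : 0 ≤ M (u - W t) := apply_nonneg _ _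
      nlinarith
    rw [div_le_iff₀ (by linarith)] at this
    linarith
  · refine (qs_le _ _ (w j) (Pi.single j 1)).trans ?_
    rw [P1_apply]
    have e1 : W (Pi.single j 1) = w j := by
      simp [W]
    rw [e1, sub_self, map_zero, zero_add, Finset.sum_eq_single j]
    · simp
    · intro i _ hi; simp [hi]
    · simp
  · exact le_qs _ _ _ _ fun t => hb t
  · set N := qs (P1 M c hc0) W with hN
    have hpos : 0 < min 1 ((M u + ω - (1 + h) * N u) / (1 + h)) :=
      lt_min one_pos (div_pos (by linarith) (by linarith))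
    set τ := min 1 ((M u + ω - (1 + h) * N u) / (1 + h)) with hτ
    obtain ⟨t, ht⟩ := qs_lt (P1 M c hc0) W u (N u + τ) (by linarith)
    rw [P1_apply] at ht
    have hτ1 : τ ≤ 1 := min_le_left _ _
    have hτ2 : τ * (1 + h) ≤ M u + ω - (1 + h) * N u := by
      have : τ ≤ (M u + ω - (1 + h) * N u) / (1 + h) := min_le_right _ _
      rwa [le_div_iff₀ (by linarith)] at this
    have hR : 0 ≤ M (u - W t) := apply_nonneg _ _
    refine ⟨t, fun j => ?_, ?_⟩
    · have h1 : |t j| * c j ≤ ∑ i, |t i| * c i :=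
        Finset.single_le_sum (f := fun i => |t i| * c i)
          (fun i _ => mul_nonneg (abs_nonneg _) (hc0 i)) (Finset.mem_univ j)
      have h2 : |t j| * 1 ≤ |t j| * c j := mul_le_mul_of_nonneg_left (hc j) (abs_nonneg _)
      linarith
    · rw [← hW]
      have h1 := hup u t
      have h2 := mul_lt_mul_of_pos_left ht (show 0 < 1 + h by linarith)
      nlinarith

end

end Pool.Agent.Lib.MP_ab3705_an.GD
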