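import Pool.Agent.Lib.MP_ab3705_an.GD.Stage

set_option autoImplicit false

namespace Pool.Agent.Lib.MP_ab3705_an.GD

open Filter Topology

section
variable {X : Type} [NormedAddCommGroup X] [NormedSpace ℝ X]

theorem vertex_one (v z : X) (a : ℝ) (ha : |a| ≤ 1) :
    ∃ b : Bool, ‖v + a • z‖ ≤ ‖v + sg b • z‖ := by
  obtain ⟨h1, h2⟩ := abs_le.1 ha
  have e : v + a • z = ((1 + a) / 2) • (v + z) + ((1 - a) / 2) • (v - z) := by module
  have h3 : ‖v + a • z‖ ≤ (1 + a) / 2 * ‖v + z‖ + (1 - a) / 2 * ‖v - z‖ := by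
    rw [e]
    refine (norm_add_le _ _).trans ?_
    rw [norm_smul, norm_smul, Real.norm_eq_abs, Real.norm_eq_abs, abs_of_nonneg (by linarith),
      abs_of_nonneg (by linarith)]
  rcases le_total ‖v + z‖ ‖v - z‖ with h | h
  · refine ⟨false, ?_⟩
    have : v + sg false • z = v - z := by simp [sg, sub_eq_add_neg]
    rw [this]; nlinarith
  · refine ⟨true, ?_⟩
    have : v + sg true • z = v + z := by simp [sg]
    rw [this]; nlinarith

theorem vertex (m : ℕ) : ∀ (z : Fin m → X) (a : Fin m → ℝ) (u : X), (∀ i, |a i| ≤ 1) →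
    ∃ e, ‖u + ∑ i, a i • z i‖ ≤ ‖u + tip z e‖ := by
  induction m with
  | zero => intro z a u _; exact ⟨fun _ => true, by simp [tip]⟩
  | succ m ih =>
    intro z a u ha
    obtain ⟨b, hb⟩ := vertex_one (u + ∑ i : Fin m, a i.succ • z i.succ) (z 0) (a 0) (ha 0)
    obtain ⟨e, he⟩ := ih (fun i => z i.succ) (fun i => a i.succ) (u + sg b • z 0) fun i => ha _
    refine ⟨Fin.cons b e, ?_⟩
    have e1 : u + ∑ i, a i • z i = u + ∑ i : Fin m, a i.succ • z i.succ + a 0 • z 0 := by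
      rw [Fin.sum_univ_succ]; abel
    have e2 : u + tip z (Fin.cons b e) = u + sg b • z 0 + tip (fun i => z i.succ) e := by
      simp only [tip, Fin.sum_univ_succ, Fin.cons_zero, Fin.cons_succ]; abel
    have e3 : u + ∑ i : Fin m, a i.succ • z i.succ + sg b • z 0
        = u + sg b • z 0 + ∑ i : Fin m, a i.succ • z i.succ := by abel
    rw [e1, e2]
    rw [e3] at hb
    exact hb.trans he

/-- The defect of finite cotype. -/
theorem defect (hX : ¬ HasLinf X) : ∃ m : ℕ, 0 < m ∧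
    ∀ z : Fin m → X, Adm (fun u => ‖u‖) 1 z → ∃ e, 2 ≤ ‖tip z e‖ := by
  by_contra hc
  push Not at hc
  refine hX ⟨2, fun n => ?_⟩
  rcases Nat.eq_zero_or_pos n with rfl | hn
  · refine ⟨0, fun a => ?_⟩
    have : a = 0 := Subsingleton.elim _ _
    simp [this]
  obtain ⟨z, hz, he⟩ := hc n hn
  refine ⟨Fintype.linearCombination ℝ z, fun a => ?_⟩
  rw [Fintype.linearCombination_apply]
  refine ⟨by simpa using hz a, ?_⟩
  rcases eq_or_ne a 0 with rfl | ha
  · simp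
  have hp : 0 < ‖a‖ := norm_pos_iff.2 ha
  obtain ⟨e, h1⟩ := vertex n z (fun i => ‖a‖⁻¹ * a i) 0 fun i => by
    rw [abs_mul, abs_of_pos (inv_pos.2 hp), inv_mul_le_iff₀ hp, mul_one]
    simpa using norm_le_pi_norm a i
  have e1 : ∑ i, (‖a‖⁻¹ * a i) • z i = ‖a‖⁻¹ • ∑ i, a i • z i := by
    rw [Finset.smul_sum]
    exact Finset.sum_congr rfl fun i _ => mul_smul _ _ _
  rw [zero_add, zero_add, e1, norm_smul, Real.norm_eq_abs, abs_of_pos (inv_pos.2 hp),
    inv_mul_le_iff₀ hp] at h1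
  have := mul_le_mul_of_nonneg_left (he e).le hp.le
  linarith

theorem exists_adm (hX : ¬ FiniteDimensional ℝ X) (m : ℕ) (C : ℝ) (hC : 0 ≤ C) :
    ∃ y0 : Fin m → X, Adm (fun u => ‖u‖) C y0 := by
  have hr : (m : Cardinal) ≤ Module.rank ℝ X := by
    have : Cardinal.aleph0 ≤ Module.rank ℝ X := by
      by_contra h
      exact hX (Module.rank_lt_aleph0_iff.1 (not_le.1 h))
    exact Cardinal.natCast_le_aleph0.trans this
  obtain ⟨v, hv⟩ := exists_linearIndependent_of_le_rank hr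
  have hker : LinearMap.ker (Fintype.linearCombination ℝ v) = ⊥ :=
    LinearMap.ker_eq_bot.2 hv.fintypeLinearCombination_injective
  obtain ⟨K, _, hK⟩ := LinearMap.exists_antilipschitzWith _ hker
  refine ⟨fun i => (C * K) • v i, fun a => ?_⟩
  have h1 := hK.le_mul_dist a 0
  rw [map_zero, dist_zero_right, dist_zero_right, Fintype.linearCombination_apply] at h1
  have e1 : ∑ i, a i • (C * K) • v i = (C * K) • ∑ i, a i • v i := by
    rw [Finset.smul_sum]
    exact Finset.sum_congr rfl fun i _ => smul_comm _ _ _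
  show C * ‖a‖ ≤ ‖∑ i, a i • (C * K) • v i‖
  rw [e1, norm_smul, Real.norm_eq_abs, abs_of_nonneg (by positivity), mul_assoc]
  exact mul_le_mul_of_nonneg_left h1 hC

theorem Trap.mono {N : Seminorm ℝ X} {g g' : ℝ} {x : X} {ε : ℝ} (h : Trap N g x ε)
    (hg : g' ≤ g) : Trap N g' x ε := by
  obtain ⟨k, y, K, hK, H⟩ := h
  refine ⟨k, y, K, hK, fun P h1 h2 x' y' hc => H P h1 (fun u => (h2 u).trans ?_) x' y' ?_⟩
  · exact mul_le_mul_of_nonneg_right (by linarith) (apply_nonneg P u)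
  · intro c a
    exact (hc c a).trans (mul_le_mul_of_nonneg_right hg (by positivity))

/-- The invariant of the recursion. -/
def Inv (e0 : ℝ) (p : Seminorm ℝ X × ℝ) : Prop :=
  0 < p.2 ∧ p.2 ≤ e0 ∧ (∀ u, p.1 u ≤ ‖u‖) ∧ ∀ u, (1 + p.2) * ‖u‖ ≤ (1 + e0) * p.1 u

theorem step (hX : ¬ FiniteDimensional ℝ X) (hL : ¬ HasLinf X) (e0 : ℝ) (he1 : e0 ≤ 1 / 4)
    (p : Seminorm ℝ X × ℝ) (hp : Inv e0 p) (x : X) (ε : ℝ) (hε : 0 < ε) :
    ∃ q : Seminorm ℝ X × ℝ, Inv e0 q ∧ (∀ u, q.1 u ≤ p.1 u) ∧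
      (∀ u, (1 + q.2) * p.1 u ≤ (1 + p.2) * q.1 u) ∧ Trap q.1 q.2 x ε := by
  obtain ⟨m, hm, H0⟩ := defect hL
  obtain ⟨N, b⟩ := p
  obtain ⟨hb0, hb1, hN1, hN2⟩ := hp
  simp only at hb0 hb1 hN1 hN2
  have he0 : 0 < e0 := by linarith
  obtain ⟨y0, hy0⟩ := exists_adm hX m (1 + e0) (by linarith)
  obtain ⟨N', g, hg, h1, h2, h3⟩ := stage hm (1 + e0) 2 (by linarith) H0 y0 hy0 N (b / 7)
    (by linarith) (by linarith) hN1
    (fun u => le_trans (mul_le_mul_of_nonneg_right (by linarith) (norm_nonneg u)) (hN2 u))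
    (by
      have h4 : (1 + b / 7) ^ 2 ≤ 3 / 2 := by nlinarith
      nlinarith) x ε hε
  have hb' : 0 < min g (b / 7) := lt_min hg (by linarith)
  have hb2 : min g (b / 7) ≤ b / 7 := min_le_right _ _
  have key : ∀ u, (1 + min g (b / 7)) * N u ≤ (1 + b) * N' u := by
    intro u
    have h4 : 0 ≤ N' u := apply_nonneg _ _
    have h5 : (1 + b / 7) * (1 + b / 7) ^ 2 ≤ 1 + b := by nlinarith [mul_pos hb0 hb0]
    calc (1 + min g (b / 7)) * N u ≤ (1 + b / 7) * N u :=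
          mul_le_mul_of_nonneg_right (by linarith) (apply_nonneg _ _)
      _ ≤ (1 + b / 7) * ((1 + b / 7) ^ 2 * N' u) :=
          mul_le_mul_of_nonneg_left (h2 u) (by linarith)
      _ = ((1 + b / 7) * (1 + b / 7) ^ 2) * N' u := by ring
      _ ≤ (1 + b) * N' u := mul_le_mul_of_nonneg_right h5 h4
  refine ⟨(N', min g (b / 7)), ⟨hb', by simp only; linarith, fun u => (h1 u).trans (hN1 u),
    fun u => ?_⟩, h1, key, h3.mono (min_le_left _ _)⟩
  have h4 := mul_le_mul_of_nonneg_left (hN2 u) (show 0 ≤ 1 + min g (b / 7) by linarith)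
  have h5 := mul_le_mul_of_nonneg_left (key u) (show 0 ≤ 1 + e0 by linarith)
  have : (1 + b) * ((1 + min g (b / 7)) * ‖u‖) ≤ (1 + b) * ((1 + e0) * N' u) := by linarith
  exact le_of_mul_le_mul_left this (by linarith)

/-- The limit seminorm. -/
theorem limit_norm [TopologicalSpace.SeparableSpace X] (hX : ¬ FiniteDimensional ℝ X)
    (hL : ¬ HasLinf X) (e0 : ℝ) (he0 : 0 < e0) (he1 : e0 ≤ 1 / 4) :
    ∃ P : Seminorm ℝ X, (∀ u, P u ≤ ‖u‖) ∧ (∀ u, ‖u‖ ≤ (1 + e0) * P u) ∧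
      ∀ (x : X) (ε : ℝ), 0 < ε → ∃ (k : ℕ) (y : Fin k → X) (d : ℝ) (K : Set X), 0 < d ∧
        IsCompact K ∧ ∀ (x' : X) (y' : Fin k → X), Close P d x y x' y' →
          ∃ s ∈ K, ‖x' - s‖ < ε := by
  let xs : ℕ → X := fun n => TopologicalSpace.denseSeq X (Nat.unpair n).1
  let es : ℕ → ℝ := fun n => 1 / (((Nat.unpair n).2 : ℝ) + 1)
  have H : ∀ (n : ℕ) (p : {p : Seminorm ℝ X × ℝ // Inv e0 p}),
      ∃ q : {p : Seminorm ℝ X × ℝ // Inv e0 p}, (∀ u, q.1.1 u ≤ p.1.1 u) ∧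
        (∀ u, (1 + q.1.2) * p.1.1 u ≤ (1 + p.1.2) * q.1.1 u) ∧ Trap q.1.1 q.1.2 (xs n) (es n) := by
    intro n p
    obtain ⟨q, h1, h2⟩ := step hX hL e0 he1 p.1 p.2 (xs n) (es n) (by positivity)
    exact ⟨⟨q, h1⟩, h2⟩
  choose F hF using H
  let p0 : {p : Seminorm ℝ X × ℝ // Inv e0 p} :=
    ⟨(normSeminorm ℝ X, e0), he0, le_rfl, fun u => le_rfl, fun u => le_rfl⟩
  let s : ℕ → {p : Seminorm ℝ X × ℝ // Inv e0 p} := fun n => Nat.rec p0 (fun n p => F n p) n
  have hs : ∀ n, s (n + 1) = F n (s n) := fun n => rfl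
  have hpos : ∀ n, 0 < 1 + (s n).1.2 := fun n => by have := (s n).2.1; linarith
  have hanti : ∀ u, Antitone fun n => (s n).1.1 u := fun u =>
    antitone_nat_of_succ_le fun n => by rw [hs]; exact (hF n (s n)).1 u
  have hmono : ∀ u, Monotone fun n => (s n).1.1 u / (1 + (s n).1.2) := fun u =>
    monotone_nat_of_le_succ fun n => by
      rw [div_le_div_iff₀ (hpos n) (hpos (n + 1))]
      have := (hF n (s n)).2.1 u
      rw [← hs] at this
      linarith
  have hbdd : ∀ u, BddBelow (Set.range fun n => (s n).1.1 u) := fun u =>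
    ⟨0, by rintro _ ⟨n, rfl⟩; exact apply_nonneg _ _⟩
  have hlim : ∀ u, Tendsto (fun n => (s n).1.1 u) atTop (𝓝 (⨅ n, (s n).1.1 u)) := fun u =>
    tendsto_atTop_ciInf (hanti u) (hbdd u)
  let P : Seminorm ℝ X := Seminorm.of (fun u => ⨅ n, (s n).1.1 u)
    (fun u v => le_of_tendsto_of_tendsto' (hlim (u + v)) ((hlim u).add (hlim v))
      fun n => map_add_le_add _ _ _)
    (fun r u => tendsto_nhds_unique (hlim (r • u)) (by
      have := (hlim u).const_mul ‖r‖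
      simpa only [map_smul_eq_mul] using this))
  have hP1 : ∀ n u, P u ≤ (s n).1.1 u := fun n u => ciInf_le (hbdd u) n
  have hP2 : ∀ n u, (s n).1.1 u ≤ (1 + (s n).1.2) * P u := by
    intro n u
    rw [mul_comm, ← div_le_iff₀ (hpos n)]
    refine ge_of_tendsto (hlim u) ?_
    filter_upwards [eventually_ge_atTop n] with k hk
    refine (hmono u hk).trans ?_
    have h1 := (s k).2.1
    exact div_le_self (apply_nonneg _ _) (by linarith)
  have hPn : ∀ u, P u ≤ ‖u‖ := fun u => hP1 0 u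
  have hnP : ∀ u, ‖u‖ ≤ (1 + e0) * P u := fun u => hP2 0 u
  refine ⟨P, hPn, hnP, fun x ε hε => ?_⟩
  obtain ⟨i, hi⟩ := (TopologicalSpace.denseRange_denseSeq X).exists_dist_lt x
    (show 0 < ε / 8 by linarith)
  obtain ⟨j, hj⟩ := exists_nat_one_div_lt (show 0 < ε / 2 by linarith)
  obtain ⟨k, y, K, hK, H⟩ := (hF (Nat.pair i j) (s (Nat.pair i j))).2.2
  rw [← hs] at H
  have e1 : xs (Nat.pair i j) = TopologicalSpace.denseSeq X i := by simp [xs]
  have e2 : es (Nat.pair i j) = 1 / ((j : ℝ) + 1) := by simp [es]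
  rw [e1, e2] at H
  have hb := (s (Nat.pair i j + 1)).2.1
  refine ⟨k + 1, Fin.cons (TopologicalSpace.denseSeq X i) y,
    min (s (Nat.pair i j + 1)).1.2 (ε / 16), K, lt_min hb (by linarith), hK, fun x' y' hc => ?_⟩
  obtain ⟨t, ht, hlt⟩ := H P (hP1 (Nat.pair i j + 1)) (hP2 (Nat.pair i j + 1)) (y' 0) (fun l => y' l.succ) (by
    intro c a
    have h1 := hc 0 (Fin.cons c a)
    simp only [Fin.sum_univ_succ, Fin.cons_zero, Fin.cons_succ, zero_smul, zero_add,
      abs_zero] at h1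
    exact h1.trans (mul_le_mul_of_nonneg_right (min_le_left _ _) (by positivity)))
  refine ⟨t, ht, ?_⟩
  have h1 := hc 1 (Fin.cons (-1) 0)
  simp only [Fin.sum_univ_succ, Fin.cons_zero, Fin.cons_succ, Pi.zero_apply, zero_smul,
    Finset.sum_const_zero, add_zero, one_smul, neg_smul, abs_zero, abs_neg, abs_one,
    ← sub_eq_add_neg] at h1
  have h2 := (abs_le.1 h1).1
  have h3 : min (s (Nat.pair i j + 1)).1.2 (ε / 16) ≤ ε / 16 := min_le_right _ _
  have h4 := hPn (x - TopologicalSpace.denseSeq X i)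
  rw [dist_eq_norm] at hi
  have h5 := hnP (x' - y' 0)
  have h6 : 0 ≤ P (x' - y' 0) := apply_nonneg _ _
  have h7 : P (x' - y' 0) ≤ ε / 4 := by linarith
  have h8 : ‖x' - t‖ ≤ ‖x' - y' 0‖ + ‖y' 0 - t‖ := norm_sub_le_norm_sub_add_norm_sub _ _ _
  nlinarith

end

/-- A copy of a type. -/
def Syn (X : Type) : Type := X

theorem ren : RenStmt := by
  intro X _ _ _ _ hX hL ε hε
  obtain ⟨P, h1, h2, h3⟩ := limit_norm hX hL (min ε (1 / 4)) (lt_min hε (by norm_num)) (min_le_right _ _)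
  have h2' : ∀ u, ‖u‖ ≤ (1 + ε) * P u := fun u =>
    (h2 u).trans (mul_le_mul_of_nonneg_right (by linarith [min_le_left ε (1 / 4)])
      (apply_nonneg _ _))
  let _ : AddCommGroup (Syn X) := inferInstanceAs (AddCommGroup X)
  let _ : Module ℝ (Syn X) := inferInstanceAs (Module ℝ X)
  let Q : AddGroupNorm (Syn X) :=
    { toFun := fun u => P u
      map_zero' := map_zero P
      add_le' := fun u v => map_add_le_add P u v
      neg' := fun u => map_neg_eq_map P u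
      eq_zero_of_map_eq_zero' := fun u hu => by
        have h4 := h2 u
        have h5 : P u = 0 := hu
        rw [h5, mul_zero] at h4
        exact norm_le_zero_iff.1 h4 }
  let _ : NormedAddCommGroup (Syn X) := Q.toNormedAddCommGroup
  let _ : NormedSpace ℝ (Syn X) :=
    { norm_smul_le := fun r u => (map_smul_eq_mul P r u).le }
  let e0 : X ≃ₗ[ℝ] Syn X := LinearEquiv.refl ℝ X
  let e : X ≃L[ℝ] Syn X := e0.toContinuousLinearEquivOfBounds 1 (1 + ε)
    (fun u => by rw [one_mul]; exact h1 u) (fun u => h2' u)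
  refine ⟨Syn X, inferInstance, inferInstance, e, fun u => ⟨h1 u, h2' u⟩, fun x η hη => ?_⟩
  obtain ⟨k, y, d, K, hd, hK, H⟩ := h3 x η hη
  refine ⟨k, y, d, e '' K, hd, hK.image e.continuous, fun x' y' hc => ?_⟩
  obtain ⟨t, ht, hlt⟩ := H x' y' hc
  exact ⟨e t, ⟨t, ht, rfl⟩, (h1 _).trans_lt hlt⟩

end Pool.Agent.Lib.MP_ab3705_an.GD
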