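import Pool.Agent.Lib.MP_ab3705_an.GD.Qs

set_option autoImplicit false

namespace Pool.Agent.Lib.MP_ab3705_an.GD

/-- Sign of a boolean. -/
def sg (b : Bool) : ℝ := if b then 1 else -1

theorem abs_sg (b : Bool) : |sg b| = 1 := by cases b <;> simp [sg]

section
variable {X : Type} [NormedAddCommGroup X] [NormedSpace ℝ X] {m : ℕ}

/-- Signed sum. -/
def tip (y : Fin m → X) (e : Fin m → Bool) : X := ∑ i, sg (e i) • y i

/-- Lower `ℓ_∞` estimate with constant `d`. -/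
def Adm (N : X → ℝ) (d : ℝ) (y : Fin m → X) : Prop :=
  ∀ a : Fin m → ℝ, d * ‖a‖ ≤ N (∑ i, a i • y i)

/-- Robust trapping of `x` near a compact set. -/
def Trap (N' : X → ℝ) (g : ℝ) (x : X) (ε : ℝ) : Prop :=
  ∃ (k : ℕ) (y : Fin k → X) (K : Set X), IsCompact K ∧
    ∀ N : Seminorm ℝ X, (∀ u, N u ≤ N' u) → (∀ u, N' u ≤ (1 + g) * N u) →
      ∀ (x' : X) (y' : Fin k → X), Close N g x y x' y' → ∃ s ∈ K, ‖x' - s‖ < ε

theorem norm_sgv (hm : 0 < m) (e : Fin m → Bool) : ‖fun i => sg (e i)‖ = 1 := by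
  apply le_antisymm
  · refine (pi_norm_le_iff_of_nonneg zero_le_one).2 fun i => ?_
    rw [Real.norm_eq_abs, abs_sg]
  · have := norm_le_pi_norm (fun i => sg (e i)) ⟨0, hm⟩
    rwa [Real.norm_eq_abs, abs_sg] at this

theorem sum_abs_le (a : Fin m → ℝ) : ∑ i, |a i| ≤ m * ‖a‖ := by
  have : ∑ i, |a i| ≤ ∑ _i : Fin m, ‖a‖ :=
    Finset.sum_le_sum fun i _ => by simpa using norm_le_pi_norm a i
  simpa using this

/-- The infimum of the distortion and a near-minimiser. -/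
theorem kappa (M : Seminorm ℝ X) (κ1 : ℝ) (y0 : Fin m → X) (hy0 : Adm M 1 y0)
    (H : ∀ z : Fin m → X, Adm M 1 z → ∃ e, κ1 ≤ M (tip z e)) (η : ℝ) (hη : 0 < η) :
    ∃ (κ : ℝ) (y : Fin m → X), κ1 ≤ κ ∧ Adm M 1 y ∧ (∀ e, M (tip y e) ≤ κ + η) ∧
      ∀ (d : ℝ) (z : Fin m → X), 0 < d → Adm M d z → ∃ e, κ * d ≤ M (tip z e) := by
  let S : Set ℝ := {K | ∃ y : Fin m → X, Adm M 1 y ∧ ∀ e, M (tip y e) ≤ K}
  have hmem : ∀ z : Fin m → X, Adm M 1 z → ∃ e, M (tip z e) ∈ S := by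
    intro z hz
    obtain ⟨e, he⟩ := Finite.exists_max fun e : Fin m → Bool => M (tip z e)
    exact ⟨e, z, hz, he⟩
  have hne : S.Nonempty := by
    obtain ⟨e, he⟩ := hmem y0 hy0
    exact ⟨_, he⟩
  have hlow : ∀ K ∈ S, κ1 ≤ K := by
    rintro K ⟨y, hy, hK⟩
    obtain ⟨e, he⟩ := H y hy
    exact he.trans (hK e)
  obtain ⟨K, ⟨y, hy, hK⟩, hlt⟩ := exists_lt_of_csInf_lt hne (show sInf S < sInf S + η by linarith)
  refine ⟨sInf S, y, le_csInf hne hlow, hy, fun e => (hK e).trans hlt.le, fun d z hd hz => ?_⟩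
  have hz' : Adm M 1 (fun i => d⁻¹ • z i) := by
    intro a
    have e1 : ∑ i, a i • d⁻¹ • z i = d⁻¹ • ∑ i, a i • z i := by
      rw [Finset.smul_sum]
      exact Finset.sum_congr rfl fun i _ => smul_comm _ _ _
    have h1 := hz a
    show 1 * ‖a‖ ≤ M (∑ i, a i • d⁻¹ • z i)
    rw [e1, map_smul_eq_mul, Real.norm_eq_abs, abs_of_pos (inv_pos.2 hd), one_mul,
      le_inv_mul_iff₀ hd]
    exact h1
  obtain ⟨e, he⟩ := hmem _ hz'
  refine ⟨e, ?_⟩
  have h2 := csInf_le ⟨κ1, hlow⟩ he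
  have e2 : tip (fun i => d⁻¹ • z i) e = d⁻¹ • tip z e := by
    unfold tip
    rw [Finset.smul_sum]
    exact Finset.sum_congr rfl fun i _ => smul_comm _ _ _
  rw [e2, map_smul_eq_mul, Real.norm_eq_abs, abs_of_pos (inv_pos.2 hd), le_inv_mul_iff₀ hd] at h2
  linarith

theorem max_pair (A B D h R : ℝ) (hh : 0 < h) (hD : 0 ≤ D) (hD2 : 2 * D ≤ h)
    (h1 : A ≤ B + 2 * D) (h2 : B ≤ A + 2 * D) (hs : A + B ≤ R) (hR : 2 * (1 + h) ^ 2 ≤ R) :
    (1 + h) * (max (A / (1 + h)) (1 + D) + max (B / (1 + h)) (1 + D)) ≤ R := by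
  have hp : 0 < 1 + h := by linarith
  have eA : (1 + h) * (A / (1 + h)) = A := by field_simp
  have eB : (1 + h) * (B / (1 + h)) = B := by field_simp
  rcases le_total (A / (1 + h)) (1 + D) with ha | ha <;>
    rcases le_total (B / (1 + h)) (1 + D) with hb | hb
  · rw [max_eq_right ha, max_eq_right hb]; nlinarith
  · rw [max_eq_right ha, max_eq_left hb, mul_add, eB]
    rw [div_le_iff₀ hp] at ha
    nlinarith
  · rw [max_eq_left ha, max_eq_right hb, mul_add, eA]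
    rw [div_le_iff₀ hp] at hb
    nlinarith
  · rw [max_eq_left ha, max_eq_left hb, mul_add, eA, eB]; exact hs

theorem stage (hm : 0 < m) (C κ0 : ℝ) (hC : 1 ≤ C)
    (H0 : ∀ z : Fin m → X, Adm (fun u => ‖u‖) 1 z → ∃ e, κ0 ≤ ‖tip z e‖)
    (y0 : Fin m → X) (hy0 : Adm (fun u => ‖u‖) C y0)
    (N : Seminorm ℝ X) (h : ℝ) (hh : 0 < h) (hh1 : h ≤ 1) (hN1 : ∀ u, N u ≤ ‖u‖)
    (hN2 : ∀ u, (1 + h) * ‖u‖ ≤ C * N u) (hκ : (1 + h) ^ 2 * C ≤ κ0) (x : X) (ε : ℝ)
    (hε : 0 < ε) :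
    ∃ (N' : Seminorm ℝ X) (g : ℝ), 0 < g ∧ (∀ u, N' u ≤ N u) ∧
      (∀ u, N u ≤ (1 + h) ^ 2 * N' u) ∧ Trap N' g x ε := by
  classical
  have hC0 : 0 < C := by linarith
  have hx0 := norm_nonneg x
  obtain ⟨L, hL⟩ : ∃ L : ℝ, L = (‖x‖ + 1) / h := ⟨_, rfl⟩
  have hL0 : 0 < L := by rw [hL]; positivity
  have hxL : N x ≤ h * L := by
    rw [hL, mul_div_cancel₀ _ hh.ne']; linarith [hN1 x]
  obtain ⟨M, hM1, hM2, hM3⟩ := smooth N x L h hh.le hxL
  have hMn : ∀ u, M u ≤ ‖u‖ := fun u => (hM1 u).trans (hN1 u)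
  have hnM : ∀ u, ‖u‖ ≤ C * M u := by
    intro u
    have h1 := hN2 u
    have h2 := mul_le_mul_of_nonneg_left (hM2 u) hC0.le
    have : (1 + h) * ‖u‖ ≤ (1 + h) * (C * M u) := by linarith
    exact le_of_mul_le_mul_left this (by linarith)
  -- the shift
  obtain ⟨δ, hδ0, hδ1, hδ2, hδ3⟩ : ∃ δ : ℝ, 0 < δ ∧ δ ≤ 1 ∧ 2 * (δ * ‖x‖) ≤ h ∧
      2 * (L * δ) ^ 2 ≤ ε * h * δ / (4 * C) := by
    refine ⟨min 1 (min (h / (2 * (‖x‖ + 1))) (ε * h / (8 * C * L ^ 2))), by positivity,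
      min_le_left _ _, ?_, ?_⟩
    · set δ := min 1 (min (h / (2 * (‖x‖ + 1))) (ε * h / (8 * C * L ^ 2)))
      have h0 : 0 < δ := by positivity
      have h1 : δ ≤ h / (2 * (‖x‖ + 1)) := (min_le_right _ _).trans (min_le_left _ _)
      rw [le_div_iff₀ (by positivity)] at h1
      nlinarith
    · set δ := min 1 (min (h / (2 * (‖x‖ + 1))) (ε * h / (8 * C * L ^ 2)))
      have h0 : 0 < δ := by positivity
      have h1 : δ ≤ ε * h / (8 * C * L ^ 2) := (min_le_right _ _).trans (min_le_right _ _)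
      rw [le_div_iff₀ (by positivity)] at h1
      rw [le_div_iff₀ (by positivity)]
      have := mul_le_mul_of_nonneg_right h1 h0.le
      nlinarith
  obtain ⟨θ, hθ⟩ : ∃ θ : ℝ, θ = ε * h * δ / (4 * C) := ⟨_, rfl⟩
  have hθ0 : 0 < θ := by rw [hθ]; positivity
  rw [← hθ] at hδ3
  have hy0M : Adm M 1 y0 := by
    intro a
    have h1 := hy0 a
    have h2 := hnM (∑ i, a i • y0 i)
    have : C * (1 * ‖a‖) ≤ C * M (∑ i, a i • y0 i) := by simp only at h1; linarith
    exact le_of_mul_le_mul_left this hC0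
  have HM : ∀ z : Fin m → X, Adm M 1 z → ∃ e, (1 + h) ^ 2 ≤ M (tip z e) := by
    intro z hz
    obtain ⟨e, he⟩ := H0 z fun a => (hz a).trans (hMn _)
    refine ⟨e, ?_⟩
    have h2 := hnM (tip z e)
    have : C * (1 + h) ^ 2 ≤ C * M (tip z e) := by linarith
    exact le_of_mul_le_mul_left this hC0
  obtain ⟨κ, y, hκ1, hy, hyκ, hmin⟩ := kappa M _ y0 hy0M HM (θ / 2) (by linarith)
  have hκpos : 1 ≤ κ := by nlinarith
  obtain ⟨D, hD⟩ : ∃ D : ℝ, D = δ * ‖x‖ := ⟨_, rfl⟩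
  have hD0 : 0 ≤ D := by rw [hD]; positivity
  rw [← hD] at hδ2
  have hMx : ∀ r : ℝ, M (r • δ • x) ≤ |r| * D := by
    intro r
    rw [map_smul_eq_mul, map_smul_eq_mul, Real.norm_eq_abs, Real.norm_eq_abs, abs_of_pos hδ0, hD]
    exact mul_le_mul_of_nonneg_left (mul_le_mul_of_nonneg_left (hMn x) hδ0.le) (abs_nonneg r)
  let w : (Fin m → Bool) × Bool → X := fun j => tip y j.1 + sg j.2 • δ • x
  let c : (Fin m → Bool) × Bool → ℝ := fun j => max (M (w j) / (1 + h)) (1 + D)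
  have hc1 : ∀ j, 1 + D ≤ c j := fun j => le_max_right _ _
  have hw : ∀ j, M (w j) ≤ (1 + h) * c j := by
    intro j
    have : M (w j) / (1 + h) ≤ c j := le_max_left _ _
    rw [div_le_iff₀ (by linarith)] at this
    linarith
  obtain ⟨N', hp1, hp2, hp3, hp4, hp5⟩ :=
    pimple M w c (fun j => le_trans (by linarith) (hc1 j)) h hh hw
  have hwt : ∀ e, w (e, true) = tip y e + δ • x := fun e => by simp [w, sg]
  have hwf : ∀ e, w (e, false) = tip y e - δ • x := fun e => by simp [w, sg, sub_eq_add_neg]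
  -- admissibility survives
  have hyN : Adm N' 1 y := by
    intro a
    refine hp4 _ _ fun t => ?_
    have e1 : ∑ i, a i • y i - ∑ j, t j • w j
        = ∑ i, (a i - ∑ j, t j * sg (j.1 i)) • y i - (∑ j, t j * sg j.2) • δ • x := by
      simp only [w, tip, smul_add, Finset.sum_add_distrib, Finset.smul_sum, sub_smul,
        Finset.sum_sub_distrib, Finset.sum_smul, mul_smul]
      rw [Finset.sum_comm (f := fun j i => t j • sg (j.1 i) • y i)]
      abel
    have h1 := hy fun i => a i - ∑ j, t j * sg (j.1 i)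
    have h2 := sn_sub M (∑ i, (a i - ∑ j, t j * sg (j.1 i)) • y i) ((∑ j, t j * sg j.2) • δ • x)
    have h3 := hMx (∑ j, t j * sg j.2)
    have hS : ∀ f : (Fin m → Bool) × Bool → Bool, |∑ j, t j * sg (f j)| ≤ ∑ j, |t j| := by
      intro f
      refine (Finset.abs_sum_le_sum_abs _ _).trans (le_of_eq ?_)
      exact Finset.sum_congr rfl fun j _ => by rw [abs_mul, abs_sg, mul_one]
    have h4 : ‖a‖ ≤ ‖fun i => a i - ∑ j, t j * sg (j.1 i)‖ + ∑ j, |t j| := by
      refine (pi_norm_le_iff_of_nonneg (by positivity)).2 fun i => ?_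
      have h5 := norm_le_pi_norm (fun i => a i - ∑ j, t j * sg (j.1 i)) i
      have h6 := hS fun j => j.1 i
      have h7 := abs_add_le (a i - ∑ j, t j * sg (j.1 i)) (∑ j, t j * sg (j.1 i))
      rw [sub_add_cancel] at h7
      rw [Real.norm_eq_abs] at h5 ⊢
      linarith
    have h8 : (∑ j, |t j|) * (1 + D) ≤ ∑ j, |t j| * c j := by
      rw [Finset.sum_mul]
      exact Finset.sum_le_sum fun j _ => mul_le_mul_of_nonneg_left (hc1 j) (abs_nonneg _)
    have h9 := mul_le_mul_of_nonneg_right (hS fun j => j.2) hD0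
    rw [e1]
    nlinarith
  -- the sum of the two weights
  have hcc : ∀ e, (1 + h) * (c (e, true) + c (e, false)) ≤ 2 * κ + 2 * θ := by
    intro e
    have h1 : 1 ≤ M (tip y e) := by
      have := hy fun i => sg (e i)
      rw [norm_sgv hm] at this
      simpa [tip] using this
    have h2 := hM3 (tip y e) δ h1
    have h3 := hyκ e
    have h4 := sn_sub M (w (e, true)) ((2 : ℝ) • δ • x)
    have h5 := sn_sub M (w (e, false)) ((-2 : ℝ) • δ • x)
    have h6 := hMx 2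
    have h7 := hMx (-2)
    have e1 : w (e, true) - (2 : ℝ) • δ • x = w (e, false) := by
      rw [hwt, hwf, two_smul]; abel
    have e2 : w (e, false) - (-2 : ℝ) • δ • x = w (e, true) := by
      rw [hwt, hwf, neg_smul, two_smul]; abel
    rw [e1] at h4
    rw [e2] at h5
    rw [abs_neg] at h7
    rw [abs_two] at h6 h7
    rw [← hwt, ← hwf] at h2
    exact max_pair _ _ D h _ hh hD0 hδ2 (by linarith) (by linarith) (by linarith) (by linarith)
  obtain ⟨B0, hB0⟩ : ∃ B0 : ℝ, B0 = 2 * κ + 2 * θ + 8 * (m + 1) + 2 * κ * (m + 1) := ⟨_, rfl⟩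
  have hm0 : (0 : ℝ) ≤ m := Nat.cast_nonneg m
  have hB0p : 0 < B0 := by rw [hB0]; positivity
  obtain ⟨g, hg0, hg1, hg2⟩ : ∃ g : ℝ, 0 < g ∧ g * (m + 1) ≤ 1 / 2 ∧ g * B0 ≤ θ := by
    refine ⟨min (1 / (2 * (m + 1))) (θ / B0), by positivity, ?_, ?_⟩
    · have h1 : min (1 / (2 * ((m : ℝ) + 1))) (θ / B0) ≤ 1 / (2 * (m + 1)) := min_le_left _ _
      rw [le_div_iff₀ (by positivity)] at h1
      linarith
    · have h1 : min (1 / (2 * ((m : ℝ) + 1))) (θ / B0) ≤ θ / B0 := min_le_right _ _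
      rwa [le_div_iff₀ hB0p] at h1
  have hgle : g ≤ 1 := by nlinarith
  refine ⟨N', g, hg0, fun u => (hp1 u).trans (hM1 u), fun u => ?_, ?_⟩
  · have h1 := mul_le_mul_of_nonneg_left (hp2 u) (show 0 ≤ 1 + h by linarith)
    have h2 := hM2 u
    nlinarith
  obtain ⟨B, hB⟩ : ∃ B : ℝ, B = 2 * (2 * κ + 2 * θ + (m + 1)) + 1 := ⟨_, rfl⟩
  have hBp : 0 ≤ B := by rw [hB]; positivity
  let Φ : ((Fin m → Bool) × Bool → ℝ) → X := fun t => (2 * δ)⁻¹ • ∑ j, t j • w j
  have hΦ : Continuous Φ := by fun_prop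
  refine ⟨m, y, Φ '' Metric.closedBall 0 (2 * B), (isCompact_closedBall _ _).image hΦ, ?_⟩
  intro P hP1 hP2 x' z hcl
  have hzM : Adm M (1 - g * (m + 1)) z := by
    intro a
    have h1 := hcl 0 a
    simp only [zero_smul, zero_add, abs_zero] at h1
    have h2 := (abs_le.1 h1).2
    have h3 := hyN a
    have h4 := hP2 (∑ i, a i • y i)
    have h5 : P (∑ i, a i • z i) ≤ M (∑ i, a i • z i) := (hP1 _).trans (hp1 _)
    have h6 := mul_le_mul_of_nonneg_left (sum_abs_le a) hg0.le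
    have h7 : 0 ≤ ‖a‖ := norm_nonneg a
    have h8 : (1 - g) * ‖a‖ ≤ P (∑ i, a i • y i) := by
      have h9 : 0 ≤ P (∑ i, a i • y i) := apply_nonneg _ _
      have h10 : ‖a‖ ≤ (1 + g) * P (∑ i, a i • y i) := by linarith
      have h11 := mul_le_mul_of_nonneg_left h10 (show 0 ≤ 1 - g by linarith)
      nlinarith [mul_nonneg (mul_nonneg hg0.le hg0.le) h9]
    nlinarith
  obtain ⟨e, he⟩ := hmin _ z (by linarith) hzM
  let u : Bool → X := fun b => tip z e + sg b • δ • x'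
  have hut : u true = tip z e + δ • x' := by simp [u, sg]
  have huf : u false = tip z e - δ • x' := by simp [u, sg, sub_eq_add_neg]
  have hlow : 2 * (κ * (1 - g * (m + 1))) ≤ M (u true) + M (u false) := by
    have h1 := map_add_le_add M (u true) (u false)
    have e1 : u true + u false = (2 : ℝ) • tip z e := by rw [hut, huf, two_smul]; abel
    rw [e1, map_smul_eq_mul, Real.norm_eq_abs, abs_two] at h1
    linarith
  have hup : ∀ b, N' (u b) ≤ (1 + g) * (c (e, b) + g * (m + 1)) := by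
    intro b
    have h1 := hcl (sg b * δ) fun i => sg (e i)
    have e1 : (sg b * δ) • x + ∑ i, sg (e i) • y i = w (e, b) := by
      simp only [w, tip, mul_smul]; abel
    have e2 : (sg b * δ) • x' + ∑ i, sg (e i) • z i = u b := by
      simp only [u, tip, mul_smul]; abel
    have e3 : |sg b * δ| + ∑ i, |sg (e i)| = δ + m := by
      rw [abs_mul, abs_sg, abs_of_pos hδ0]; simp [abs_sg]
    rw [e1, e2, e3] at h1
    have h2 := (abs_le.1 h1).1
    have h3 : P (w (e, b)) ≤ c (e, b) := (hP1 _).trans (hp3 _)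
    have h4 : P (u b) ≤ c (e, b) + g * (m + 1) := by nlinarith
    exact (hP2 _).trans (mul_le_mul_of_nonneg_left h4 (by linarith))
  have hce := hcc e
  have hct := hc1 (e, true)
  have hcf := hc1 (e, false)
  have hsum : (1 + h) * N' (u true) + (1 + h) * N' (u false)
      ≤ M (u true) + M (u false) + 3 * θ := by
    have h1 := mul_le_mul_of_nonneg_left (add_le_add (hup true) (hup false))
      (show 0 ≤ 1 + h by linarith)
    have h2 : (1 + h) * ((1 + g) * (c (e, true) + g * (m + 1)) + (1 + g) * (c (e, false) + g * (m + 1)))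
        = (1 + g) * ((1 + h) * (c (e, true) + c (e, false))) + ((1 + h) * (1 + g)) * (2 * (g * (m + 1))) := by
      ring
    have h3 := mul_le_mul_of_nonneg_left hce (show 0 ≤ 1 + g by linarith)
    have h4 : (1 + h) * (1 + g) ≤ 4 := by nlinarith
    have h5 := mul_le_mul_of_nonneg_right h4 (show 0 ≤ 2 * (g * (m + 1)) by positivity)
    rw [hB0] at hg2
    nlinarith
  have hbd : ∀ b, N' (u b) + 1 ≤ B := by
    intro b
    have h1 := hup b
    have h2 : c (e, b) ≤ 2 * κ + 2 * θ := by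
      have h3 : c (e, true) + c (e, false) ≤ 2 * κ + 2 * θ := by nlinarith
      cases b <;> linarith
    have h4 : c (e, b) + g * (m + 1) ≤ 2 * κ + 2 * θ + (m + 1) := by linarith
    have h5 : 0 ≤ c (e, b) + g * (m + 1) := by have := hc1 (e, b); positivity
    rw [hB]
    nlinarith
  obtain ⟨t1, ht1, hr1⟩ := hp5 (u true) (4 * θ) (by have := hp2 (u false); linarith)
  obtain ⟨t2, ht2, hr2⟩ := hp5 (u false) (4 * θ) (by have := hp2 (u true); linarith)
  refine ⟨Φ (t1 - t2), ⟨t1 - t2, ?_, rfl⟩, ?_⟩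
  · rw [mem_closedBall_zero_iff]
    refine (pi_norm_le_iff_of_nonneg (by positivity)).2 fun j => ?_
    have h1 := abs_sub (t1 j) (t2 j)
    have h2 := (ht1 j).trans (hbd true)
    have h3 := (ht2 j).trans (hbd false)
    rw [Real.norm_eq_abs, Pi.sub_apply]
    linarith
  · have e1 : x' - Φ (t1 - t2)
        = (2 * δ)⁻¹ • ((u true - ∑ j, t1 j • w j) - (u false - ∑ j, t2 j • w j)) := by
      have e2 : u true - ∑ j, t1 j • w j - (u false - ∑ j, t2 j • w j)
          = (2 * δ) • x' - ∑ j, (t1 - t2) j • w j := by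
        rw [hut, huf, mul_smul, two_smul]
        simp only [Pi.sub_apply, sub_smul, Finset.sum_sub_distrib]
        abel
      rw [e2, smul_sub, smul_smul, inv_mul_cancel₀ (by positivity), one_smul]
    rw [e1, norm_smul, Real.norm_eq_abs, abs_of_pos (by positivity),
      inv_mul_lt_iff₀ (by positivity)]
    have h1 := norm_sub_le (u true - ∑ j, t1 j • w j) (u false - ∑ j, t2 j • w j)
    have h2 := hnM (u true - ∑ j, t1 j • w j)
    have h3 := hnM (u false - ∑ j, t2 j • w j)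
    have h4 : 4 * θ * C = ε * h * δ := by rw [hθ]; field_simp
    have h5 := mul_lt_mul_of_pos_right hr1 hC0
    have h6 := mul_lt_mul_of_pos_right hr2 hC0
    have h7 : h * (‖u true - ∑ j, t1 j • w j‖ + ‖u false - ∑ j, t2 j • w j‖)
        < h * (2 * δ * ε) := by
      have h8 := mul_le_mul_of_nonneg_left h2 hh.le
      have h9 := mul_le_mul_of_nonneg_left h3 hh.le
      nlinarith
    have := lt_of_mul_lt_mul_left h7 hh.le
    linarith

end

end Pool.Agent.Lib.MP_ab3705_an.GD
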