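import Pool.Agent.Lib.MP_ab3705_an.GD.Defs

set_option autoImplicit false

namespace Pool.Agent.Lib.MP_ab3705_an.GD

/-- The tuples `(x, y)` and `(x', y')` have `d`-close types for the function `N`. -/
def Close {X : Type} [AddCommGroup X] [Module ℝ X] (N : X → ℝ) {k : ℕ} (d : ℝ)
    (x : X) (y : Fin k → X) (x' : X) (y' : Fin k → X) : Prop :=
  ∀ (c : ℝ) (a : Fin k → ℝ),
    |N (c • x + ∑ i, a i • y i) - N (c • x' + ∑ i, a i • y' i)| ≤ d * (|c| + ∑ i, |a i|)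

/-- Every point is trapped near a compact set by its approximate type over a finite tuple. -/
def Alg (Y : Type) [NormedAddCommGroup Y] [NormedSpace ℝ Y] : Prop :=
  ∀ (x : Y) (ε : ℝ), 0 < ε → ∃ (k : ℕ) (y : Fin k → Y) (d : ℝ) (K : Set Y), 0 < d ∧
    IsCompact K ∧ ∀ (x' : Y) (y' : Fin k → Y), Close (fun u : Y => ‖u‖) d x y x' y' →
      ∃ s ∈ K, ‖x' - s‖ < ε

/-- Part A. -/
def CritStmt : Prop :=
  ∀ (Y : Type) [NormedAddCommGroup Y] [NormedSpace ℝ Y] [CompleteSpace Y]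
    [TopologicalSpace.SeparableSpace Y], Alg Y → GdIn Pn Y

/-- Part C. -/
def OnlyStmt : Prop :=
  ∀ (Y : Type) [NormedAddCommGroup Y] [NormedSpace ℝ Y] [CompleteSpace Y]
    [TopologicalSpace.SeparableSpace Y], ¬ FiniteDimensional ℝ Y → HasLinf Y →
    (GdIn Pinf Y ∨ GdIn Bn Y) → IsGurarii Y

/-- `L_p[0,1]` fails `Alg`. -/
def LpStmt : Prop :=
  ∀ (Y : Type) [NormedAddCommGroup Y] [NormedSpace ℝ Y], IsLp Y → ¬ Alg Y

/-- Part B. -/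
def RenStmt : Prop :=
  ∀ (X : Type) [NormedAddCommGroup X] [NormedSpace ℝ X] [CompleteSpace X]
    [TopologicalSpace.SeparableSpace X], ¬ FiniteDimensional ℝ X → ¬ HasLinf X →
    ∀ ε : ℝ, 0 < ε → ∃ (Y : Type) (_ : NormedAddCommGroup Y) (_ : NormedSpace ℝ Y)
      (e : X ≃L[ℝ] Y), (∀ x, ‖e x‖ ≤ ‖x‖ ∧ ‖x‖ ≤ (1 + ε) * ‖e x‖) ∧ Alg Y

end Pool.Agent.Lib.MP_ab3705_an.GD
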